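import Pool.Agent.K4H25.AB.Base
import Pool.Agent.K4H25.LP.Kod
import Pool.Agent.R882.TLog

/-!
Logarithmic Kodaira dimension from traces: maps whose degree is at most the degree of the forms.
-/

set_option autoImplicit false
set_option linter.unusedSectionVars false
set_option linter.overlappingInstances false
set_option maxHeartbeats 4000000
set_option synthInstance.maxHeartbeats 400000

open FF Module Pool.Agent.W602.GT Pool.Agent.W603.LV Pool.Agent.W619.PQ
open Pool.Agent.Y184.NT Pool.Agent.W619.TW Pool.Agent.R882.LT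

namespace Pool.Agent.K4H25.LF

open Pool.Agent.K4H25.AB
open Pool.Agent.Y954.NT (exists_lift trace_der rel2 line_of)

section

variable {L K : Type} [Field L] [Field K] [Algebra ℂ L] [Algebra ℂ K] [Algebra L K]
  [IsScalarTower ℂ L K] [FiniteDimensional L K] [Algebra.EssFiniteType ℂ L]
  [Algebra.EssFiniteType ℂ K] {n N m d : ℕ}

/-- the data of the traces -/
theorem tr_dataL (hL : Algebra.trdeg ℂ L = n)
    {BK : Place ℂ K → Prop} {BL : Place ℂ L → Prop}
    (hB : ∀ (P : Place ℂ L) (Q : Place ℂ K) (e : ℕ), Over Q P e → BK Q → BL P)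
    {x : Fin N → K} {j0 : Fin N} (hj0 : x j0 = 1)
    {ω : (Fin n → Derivation ℂ K K) → K} (hω : IsPluri 1 ω)
    (hreg : ∀ (f : Fin m → Fin N) (P : Place ℂ K), Divisorial n P →
      SecAt BK P (fun D => (∏ k, x (f k)) * ω D))
    {y : Fin n → L} {E : Fin n → Derivation ℂ L L} (hy : IsTranscendenceBasis ℂ y)
    (hE : ∀ i j, E i (y j) = if i = j then 1 else 0) {E' : Fin n → Derivation ℂ K K}
    (hE' : ∀ i f, E' i (algebraMap L K f) = algebraMap L K (E i f))
    (hm : Module.finrank L (IntermediateField.adjoin L (Set.range x)) ≤ m)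
    (hne : Algebra.trace (IntermediateField.adjoin L (Set.range x)) K (ω E') ≠ 0) :
    ∃ (x' : Fin N → IntermediateField.adjoin L (Set.range x)) (T : (Fin m → Fin N) → L),
      (∀ j, (x' j : K) = x j) ∧ x' j0 = 1 ∧
      IntermediateField.adjoin L (Set.range x') = ⊤ ∧
      (∀ f, T f = Algebra.trace L (IntermediateField.adjoin L (Set.range x))
        ((∏ k, x' (f k)) *
          Algebra.trace (IntermediateField.adjoin L (Set.range x)) K (ω E'))) ∧
      (∀ f (P : Place ℂ L), Divisorial n P → SecAt BL P (trForm y (T f))) ∧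
      (∃ f, T f ≠ 0) ∧
      Algebra.trdeg ℂ (IntermediateField.adjoin ℂ (Set.range x')) =
        Algebra.trdeg ℂ (IntermediateField.adjoin ℂ (Set.range x)) := by
  classical
  have hcL : CharZero L := charZero_of_injective_algebraMap (algebraMap ℂ L).injective
  obtain ⟨x', hx'⟩ : ∃ x' : Fin N → IntermediateField.adjoin L (Set.range x),
    ∀ j, (x' j : K) = x j :=
    ⟨fun j => ⟨x j, IntermediateField.subset_adjoin L _ ⟨j, rfl⟩⟩, fun _ => rfl⟩
  obtain ⟨W, hWdef⟩ : ∃ W : (Fin m → Fin N) → (Fin n → Derivation ℂ K K) → K,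
    W = fun f D => (∏ k, x (f k)) * ω D := ⟨_, rfl⟩
  have hWp : ∀ f, IsPluri 1 (W f) := by
    intro f A D
    rw [hWdef]
    change (∏ k, x (f k)) * ω (fun i => ∑ j, A i j • D j) = _
    rw [hω A D]
    ring
  have hWr : ∀ f (P : Place ℂ K), Divisorial n P → SecAt BK P (W f) := by
    intro f P hP
    rw [hWdef]
    exact hreg f P hP
  obtain ⟨T, hTdef⟩ : ∃ T : (Fin m → Fin N) → L, ∀ f, T f = Algebra.trace L K (W f E') :=
    ⟨_, fun _ => rfl⟩
  have hT : ∀ f, T f = Algebra.trace L (IntermediateField.adjoin L (Set.range x))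
      ((∏ k, x' (f k)) *
        Algebra.trace (IntermediateField.adjoin L (Set.range x)) K (ω E')) := by
    intro f
    have h2 : W f E' = (∏ k, x' (f k)) • ω E' := by
      rw [hWdef, Algebra.smul_def]
      change (∏ k, x (f k)) * ω E' = _
      congr 1
      rw [map_prod]
      exact Finset.prod_congr rfl fun k _ => (hx' _).symm
    rw [hTdef, h2, ← Algebra.trace_trace (S := IntermediateField.adjoin L (Set.range x)),
      map_smul, smul_eq_mul]
  have hθr : ∀ f (P : Place ℂ L), Divisorial n P →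
      SecAt BL P (trForm y (T f)) := by
    intro f P hP
    rw [hTdef]
    exact trForm_sec hL hy hE hE' (W f) (hWp f) hB (hWr f) P hP
  have hx0 : x' j0 = 1 := by
    apply Subtype.ext
    rw [hx', hj0]
    rfl
  have hgen : IntermediateField.adjoin L (Set.range x') = ⊤ :=
    Pool.Agent.R882.WR.gen_self x' hx'
  have hd' : Algebra.trdeg ℂ (IntermediateField.adjoin ℂ (Set.range x')) =
      Algebra.trdeg ℂ (IntermediateField.adjoin ℂ (Set.range x)) := by
    have htw : IsScalarTower ℂ (IntermediateField.adjoin L (Set.range x)) K :=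
      IsScalarTower.of_algebraMap_eq fun r => rfl
    let φ : IntermediateField.adjoin L (Set.range x) →ₐ[ℂ] K :=
      IsScalarTower.toAlgHom ℂ (IntermediateField.adjoin L (Set.range x)) K
    have h1 : (IntermediateField.adjoin ℂ (Set.range x')).map φ =
        IntermediateField.adjoin ℂ (Set.range x) := by
      rw [IntermediateField.adjoin_map]
      congr 1
      ext z
      constructor
      · rintro ⟨_, ⟨j, rfl⟩, rfl⟩
        exact ⟨j, (hx' j).symm⟩
      · rintro ⟨j, rfl⟩
        exact ⟨x' j, ⟨j, rfl⟩, hx' j⟩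
    have h2 := (IntermediateField.equivMap (IntermediateField.adjoin ℂ (Set.range x')) φ)
    rw [h1] at h2
    exact h2.trdeg_eq
  have hT0 : ∃ f, T f ≠ 0 := by
    by_contra hcon
    push Not at hcon
    have h1 := (Pool.Agent.Y614.NT.stLine Pool.Agent.Y153.NT.stCB L
      (IntermediateField.adjoin L (Set.range x)) N m x' j0 hx0 hgen _ hne
      (fun f => by rw [← hT, hcon]) (by omega)).1
    omega
  exact ⟨x', T, hx', hx0, hgen, hT, hθr, hT0, hd'⟩

theorem kod_lineL (hL : Algebra.trdeg ℂ L = n)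
    {BK : Place ℂ K → Prop} {BL : Place ℂ L → Prop}
    (hB : ∀ (P : Place ℂ L) (Q : Place ℂ K) (e : ℕ), Over Q P e → BK Q → BL P)
    {x : Fin N → K} {j0 : Fin N} (hj0 : x j0 = 1) {ω : (Fin n → Derivation ℂ K K) → K}
    (hω : IsPluri 1 ω)
    (hreg : ∀ (f : Fin m → Fin N) (P : Place ℂ K), Divisorial n P →
      SecAt BK P (fun D => (∏ k, x (f k)) * ω D))
    (hd : Algebra.trdeg ℂ (IntermediateField.adjoin ℂ (Set.range x)) = (d + 1 : ℕ))
    {y : Fin n → L} {E : Fin n → Derivation ℂ L L} (hy : IsTranscendenceBasis ℂ y)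
    (hE : ∀ i j, E i (y j) = if i = j then 1 else 0) {E' : Fin n → Derivation ℂ K K}
    (hE' : ∀ i f, E' i (algebraMap L K f) = algebraMap L K (E i f)) (hm1 : 1 ≤ m)
    (hm : Module.finrank L (IntermediateField.adjoin L (Set.range x)) ≤ m)
    (hne : Algebra.trace (IntermediateField.adjoin L (Set.range x)) K (ω E') ≠ 0) :
    Pool.Agent.W602.GT.KodGe ℂ L n BL d := by
  classical
  obtain ⟨x', T, hx', hx0, hgen, hT, hθr, ⟨f0, hf0⟩, hd'⟩ :=
    tr_dataL hL hB hj0 hω hreg hy hE hE' hm hne
  have htw : IsScalarTower ℂ (IntermediateField.adjoin L (Set.range x)) K :=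
    IsScalarTower.of_algebraMap_eq fun r => rfl
  have hess : Algebra.EssFiniteType ℂ (IntermediateField.adjoin L (Set.range x)) :=
    Pool.Agent.TH466.QG.ess_below (K := K)
  obtain ⟨i0, hi0⟩ := exists_coord (L := L) (K := IntermediateField.adjoin L (Set.range x))
    Pool.Agent.Y141.NT.stCB2 hx0 hgen hm1 hm hne hT hf0
  obtain ⟨s, hs0, hs⟩ := exists_ratios_line (d := d) hL (by rw [hd', hd]) T hf0 hi0
  exact Pool.Agent.K4H25.LP.kod_log (T := T) (s := s) hE hθr hs0 hs


/-- **Kodaira dimension from traces**, for degrees up to `m` and a base which has a nonzero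
pluricanonical form. -/
theorem kod_formL (hL : Algebra.trdeg ℂ L = n)
    {BK : Place ℂ K → Prop} {BL : Place ℂ L → Prop}
    (hB : ∀ (P : Place ℂ L) (Q : Place ℂ K) (e : ℕ), Over Q P e → BK Q → BL P)
    {x : Fin N → K} {j0 : Fin N} (hj0 : x j0 = 1) {ω : (Fin n → Derivation ℂ K K) → K}
    (hω : IsPluri 1 ω)
    (hreg : ∀ (f : Fin m → Fin N) (P : Place ℂ K), Divisorial n P →
      SecAt BK P (fun D => (∏ k, x (f k)) * ω D))
    (hd : Algebra.trdeg ℂ (IntermediateField.adjoin ℂ (Set.range x)) = (d : ℕ))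
    {y : Fin n → L} {E : Fin n → Derivation ℂ L L} (hy : IsTranscendenceBasis ℂ y)
    (hE : ∀ i j, E i (y j) = if i = j then 1 else 0) {E' : Fin n → Derivation ℂ K K}
    (hE' : ∀ i f, E' i (algebraMap L K f) = algebraMap L K (E i f)) (hm1 : 1 ≤ m)
    (hm : Module.finrank L (IntermediateField.adjoin L (Set.range x)) ≤ m)
    (hne : Algebra.trace (IntermediateField.adjoin L (Set.range x)) K (ω E') ≠ 0)
    {q : ℕ} (hq : 1 ≤ q)
    {η : (Fin d → Derivation ℂ (IntermediateField.adjoin ℂ (Set.range x))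
      (IntermediateField.adjoin ℂ (Set.range x))) → IntermediateField.adjoin ℂ (Set.range x)}
    (hη : IsPluri q η)
    (hηr : ∀ P : Place ℂ (IntermediateField.adjoin ℂ (Set.range x)), Divisorial d P → RegAt P η)
    (h0 : ∃ D, η D ≠ 0) :
    Pool.Agent.W602.GT.KodGe ℂ L n BL d := by
  classical
  obtain ⟨x', T, hx', hx0, hgen, hT, hθr, hT0, hd'⟩ :=
    tr_dataL hL hB hj0 hω hreg hy hE hE' hm hne
  have htw : IsScalarTower ℂ (IntermediateField.adjoin L (Set.range x)) K :=
    IsScalarTower.of_algebraMap_eq fun r => rfl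
  have hess : Algebra.EssFiniteType ℂ (IntermediateField.adjoin L (Set.range x)) :=
    Pool.Agent.TH466.QG.ess_below (K := K)
  have htrF : Algebra.trdeg ℂ (IntermediateField.adjoin L (Set.range x)) = n := by
    rw [← hL, ← trdeg_add_eq ℂ L (A := IntermediateField.adjoin L (Set.range x)),
      trdeg_eq_zero (R := L) (A := IntermediateField.adjoin L (Set.range x)), add_zero]
  -- the form on the field generated by the `x'`
  let φ : IntermediateField.adjoin L (Set.range x) →ₐ[ℂ] K :=
    IsScalarTower.toAlgHom ℂ (IntermediateField.adjoin L (Set.range x)) K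
  have h1 : (IntermediateField.adjoin ℂ (Set.range x')).map φ =
      IntermediateField.adjoin ℂ (Set.range x) := by
    rw [IntermediateField.adjoin_map]
    congr 1
    ext z
    constructor
    · rintro ⟨_, ⟨j, rfl⟩, rfl⟩
      exact ⟨j, (hx' j).symm⟩
    · rintro ⟨j, rfl⟩
      exact ⟨x' j, ⟨j, rfl⟩, hx' j⟩
  obtain ⟨e⟩ : Nonempty (IntermediateField.adjoin ℂ (Set.range x) ≃ₐ[ℂ]
      IntermediateField.adjoin ℂ (Set.range x')) := by
    rw [← h1]
    exact ⟨(IntermediateField.equivMap (IntermediateField.adjoin ℂ (Set.range x')) φ).symm⟩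
  obtain ⟨η', hη', hηr', h0'⟩ := form_equiv e hη hηr h0
  have hsep : ∀ D : Derivation ℂ L L, (∀ f g, T f * D (T g) = T g * D (T f)) →
      ∀ D' : Derivation ℂ (IntermediateField.adjoin L (Set.range x))
        (IntermediateField.adjoin L (Set.range x)),
        (∀ f, D' (algebraMap L _ f) = algebraMap L _ (D f)) → ∀ j, D' (x' j) = 0 := by
    intro D hD D' hD' j
    by_contra hcon
    obtain ⟨a, b, j1, hab, hb1, hDa, hDb, hτ⟩ := line_const Pool.Agent.Y141.NT.stCB2 hx0 hgen hm1
      hm hne hT D hD D' hD' ⟨j, hcon⟩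
    have h2 := form_const (K := IntermediateField.adjoin L (Set.range x)) htrF hab
      (fun j => by rw [hD', hDa, map_zero]) (fun j => by rw [hD', hDb, map_zero]) hτ
      (by rw [hd', hd]) hq hη' hηr' h0' j1
    rw [hb1, map_one] at h2
    exact one_ne_zero h2
  obtain ⟨s, hs0, hs⟩ := exists_ratios_d (d := d) hL (by rw [hd', hd]) T hT0 hsep
  exact Pool.Agent.K4H25.LP.kod_log (T := T) (s := s) hE hθr hs0 hs


end

section

variable {K : Type} [Field K] [Algebra ℂ K] {n N M d : ℕ}

/-- The reduction. -/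
theorem core_redL [Algebra.EssFiniteType ℂ K] (htr : Algebra.trdeg ℂ K = n) {t : Fin N → K}
    {BK : Place ℂ K → Prop} {L : Type} [Field L] [Algebra ℂ L] [Algebra L K] [IsScalarTower ℂ L K]
    [FiniteDimensional L K] {ω : (Fin n → Derivation ℂ K K) → K} (hω : IsTwistedLog n M BK t ω)
    (htn : TraceNe ω ((IntermediateField.adjoin L (Set.range t)).restrictScalars ℂ)) :
    ∃ (x : Fin (N + 1) → K) (y : Fin n → L) (E : Fin n → Derivation ℂ L L)
      (E' : Fin n → Derivation ℂ K K), x 0 = 1 ∧ (∀ j, x j.succ = t j) ∧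
      IntermediateField.adjoin L (Set.range x) = IntermediateField.adjoin L (Set.range t) ∧
      IntermediateField.adjoin ℂ (Set.range x) = IntermediateField.adjoin ℂ (Set.range t) ∧
      IsTranscendenceBasis ℂ y ∧ (∀ i j, E i (y j) = if i = j then 1 else 0) ∧
      (∀ i f, E' i (algebraMap L K f) = algebraMap L K (E i f)) ∧
      Algebra.trace (IntermediateField.adjoin L (Set.range x)) K (ω E') ≠ 0 ∧
      ∀ (g : Fin M → Fin (N + 1)) (P : Place ℂ K), Divisorial n P →
        SecAt BK P (fun D => (∏ k, x (g k)) * ω D) := by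
  classical
  have hL : Algebra.trdeg ℂ L = n := Pool.Agent.Y184.NT.trdeg_below (K := K) htr
  obtain ⟨z, E, hz, hE⟩ := Pool.Agent.Y172.exists_crd (k := ℂ) (K := L) hL
  choose E' hE' using fun i => Pool.Agent.Y172.exists_lift (k := ℂ) (K := L) (L := K) hL (E i)
  have hzK : IsTranscendenceBasis ℂ (fun j => algebraMap L K (z j)) := hz.algebraMap_comp
  have hE'd := Pool.Agent.Y172.lift_dual hE hE'
  obtain ⟨x, hx⟩ : ∃ x : Fin (N + 1) → K, x = Fin.cons 1 t := ⟨_, rfl⟩
  have hx0 : x 0 = 1 := by rw [hx, Fin.cons_zero]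
  have hrange : Set.range x = insert 1 (Set.range t) := by
    rw [hx, Fin.range_cons]
  have hadj : IntermediateField.adjoin L (Set.range x) =
      IntermediateField.adjoin L (Set.range t) := by
    rw [hrange]
    apply le_antisymm
    · rw [IntermediateField.adjoin_le_iff]
      rintro y (rfl | hy)
      · exact one_mem _
      · exact IntermediateField.subset_adjoin _ _ hy
    · exact IntermediateField.adjoin.mono _ _ _ (Set.subset_insert _ _)
  have hadjC : IntermediateField.adjoin ℂ (Set.range x) =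
      IntermediateField.adjoin ℂ (Set.range t) := by
    rw [hrange]
    apply le_antisymm
    · rw [IntermediateField.adjoin_le_iff]
      rintro y (rfl | hy)
      · exact one_mem _
      · exact IntermediateField.subset_adjoin _ _ hy
    · exact IntermediateField.adjoin.mono _ _ _ (Set.subset_insert _ _)
  have hne : Algebra.trace (IntermediateField.adjoin L (Set.range x)) K (ω E') ≠ 0 := by
    rw [hadj]
    obtain ⟨D, D', hD, htr'⟩ := htn
    intro h0
    apply htr'
    have hLF : ∀ f : L, algebraMap L K f ∈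
        (IntermediateField.adjoin L (Set.range t)).restrictScalars ℂ := fun f =>
      (IntermediateField.adjoin L (Set.range t)).algebraMap_mem f
    have h1 : Algebra.trace ((IntermediateField.adjoin L (Set.range t)).restrictScalars ℂ) K
        (ω E') = 0 := by
      have h2 : ((Algebra.trace (IntermediateField.adjoin L (Set.range t)) K (ω E') :
          IntermediateField.adjoin L (Set.range t)) : K) = 0 := by
        rw [h0]
        rfl
      apply Subtype.ext
      exact h2
    obtain ⟨δ, hδ⟩ : ∃ δ : (IntermediateField.adjoin L (Set.range t)).restrictScalars ℂ,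
      δ = (Matrix.of fun i j => D i ⟨algebraMap L K (z j), hLF _⟩ :
        Matrix (Fin n) (Fin n) ((IntermediateField.adjoin L
          (Set.range t)).restrictScalars ℂ)).det := ⟨_, rfl⟩
    have h2 : ω D' = δ • ω E' := by
      rw [Pool.Agent.Y172.pluri_coord hzK hE'd hω.1 D', pow_one, Algebra.smul_def, hδ,
        RingHom.map_det]
      congr 1
      congr 1
      ext i j
      rw [RingHom.mapMatrix_apply, Matrix.map_apply, Matrix.of_apply, Matrix.of_apply]
      exact hD i ⟨algebraMap L K (z j), hLF _⟩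
    rw [h2, map_smul, h1, smul_zero]
  refine ⟨x, z, E, E', hx0, fun j => by rw [hx, Fin.cons_succ], hadj, hadjC, hz, hE, hE', hne,
    fun g P hP => ?_⟩
  rw [hx]
  exact hω.reg g P hP

/-- **The core, for degrees up to `M`.** -/
theorem core_lineL [Algebra.EssFiniteType ℂ K] (htr : Algebra.trdeg ℂ K = n) {t : Fin N → K}
    (hd : Algebra.trdeg ℂ (IntermediateField.adjoin ℂ (Set.range t)) = (d + 1 : ℕ))
    {L : Type} [Field L] [Algebra ℂ L] [Algebra L K] [IsScalarTower ℂ L K]
    [FiniteDimensional L K]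
    {BK : Place ℂ K → Prop} {BL : Place ℂ L → Prop}
    (hB : ∀ (P : Place ℂ L) (Q : Place ℂ K) (e : ℕ), Over Q P e → BK Q → BL P)
    {ω : (Fin n → Derivation ℂ K K) → K} (hω : IsTwistedLog n M BK t ω)
    (htn : TraceNe ω ((IntermediateField.adjoin L (Set.range t)).restrictScalars ℂ))
    (hM : 1 ≤ M) (hdeg : Module.finrank L (IntermediateField.adjoin L (Set.range t)) ≤ M) :
    Pool.Agent.W602.GT.KodGe ℂ L n BL d := by
  classical
  have hessL : Algebra.EssFiniteType ℂ L := Pool.Agent.TH466.QG.ess_below (K := K)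
  have hL : Algebra.trdeg ℂ L = n := Pool.Agent.Y184.NT.trdeg_below (K := K) htr
  obtain ⟨x, y, E, E', hx0, hxt, hadj, hadjC, hy, hE, hE', hne, hreg⟩ := core_redL htr hω htn
  rw [← hadj] at hdeg
  rw [← hadjC] at hd
  exact kod_lineL hL hB hx0 hω.1 hreg hd hy hE hE' hM hdeg hne


/-- **The core, for degrees up to `M`, over a base which has a nonzero pluricanonical form.** -/
theorem core_formL [Algebra.EssFiniteType ℂ K] (htr : Algebra.trdeg ℂ K = n) {t : Fin N → K}
    (hd : Algebra.trdeg ℂ (IntermediateField.adjoin ℂ (Set.range t)) = (d : ℕ))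
    {L : Type} [Field L] [Algebra ℂ L] [Algebra L K] [IsScalarTower ℂ L K]
    [FiniteDimensional L K]
    {BK : Place ℂ K → Prop} {BL : Place ℂ L → Prop}
    (hB : ∀ (P : Place ℂ L) (Q : Place ℂ K) (e : ℕ), Over Q P e → BK Q → BL P)
    {ω : (Fin n → Derivation ℂ K K) → K} (hω : IsTwistedLog n M BK t ω)
    (htn : TraceNe ω ((IntermediateField.adjoin L (Set.range t)).restrictScalars ℂ))
    (hM : 1 ≤ M) (hdeg : Module.finrank L (IntermediateField.adjoin L (Set.range t)) ≤ M)
    (hκ : Pool.Agent.W602.GT.KodGe ℂ (IntermediateField.adjoin ℂ (Set.range t)) d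
      (fun _ => False) 0) :
    Pool.Agent.W602.GT.KodGe ℂ L n BL d := by
  classical
  have hessL : Algebra.EssFiniteType ℂ L := Pool.Agent.TH466.QG.ess_below (K := K)
  have hL : Algebra.trdeg ℂ L = n := Pool.Agent.Y184.NT.trdeg_below (K := K) htr
  obtain ⟨x, y, E, E', hx0, hxt, hadj, hadjC, hy, hE, hE', hne, hreg⟩ := core_redL htr hω htn
  rw [← hadj] at hdeg
  rw [← hadjC] at hd hκ
  obtain ⟨q, hq, η, hη, D, hD, -⟩ := hκ
  exact kod_formL hL hB hx0 hω.1 hreg hd hy hE hE' hM hdeg hne hq (hη 0).1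
    (fun P hP => (hη 0).2.2 P hP fun h => h) ⟨D, hD⟩


end

end Pool.Agent.K4H25.LF
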