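import Pool.Agent.K4H25.LF.F1
import Pool.Agent.K4H25.LP.Full
import Pool.Agent.K4H25.MG.Tor
import Pool.Agent.K4H25.MG.Full

/-!
Images of open varieties and of fibrations by open curves over products of projective spaces.
-/

set_option autoImplicit false
set_option linter.unusedSectionVars false
set_option linter.overlappingInstances false
set_option maxHeartbeats 4000000
set_option synthInstance.maxHeartbeats 400000

open FF Module Pool.Agent Pool.Agent.W602.GT
open Pool.Agent.R882.LT (TraceNe SecAt LogGenusZero IsTwistedLog)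
open Pool.Agent.W619.PL (IsA1Uniruled)

namespace Pool.Agent.K4H25.LF

open Pool.Agent.K4H25.MG Pool.Agent.K4H25.PC Pool.Agent.K4H25.LP

/-- The forms `t ^ a ω`, where the degree of `t ^ a` in the variables of the block `b` is at most
`M b`, are logarithmic. -/
def TwLog {K : Type} [Field K] [Algebra ℂ K] {N q : ℕ} (n : ℕ) (BK : Place ℂ K → Prop)
    (β : Fin N → Fin q) (M : Fin q → ℕ) (t : Fin N → K) (ω : (Fin n → Derivation ℂ K K) → K) :
    Prop :=
  IsPluri 1 ω ∧ ∀ a : Fin N → ℕ, (∀ b, ∑ j with β j = b, a j ≤ M b) → ∀ P : Place ℂ K,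
    Divisorial n P → SecAt BK P (fun D => (∏ j, t j ^ a j) * ω D)

/-- the monomials separate -/
theorem sep_box {F : Type} [Field F] [Algebra ℂ F] {N q : ℕ} (β : Fin N → Fin q) (M : Fin q → ℕ)
    (x : Fin N → F) : SepSys β M x
      (fun a : {a : Fin N → ℕ // ∀ b, ∑ j with β j = b, a j ≤ M b} => ∏ j, x j ^ a.1 j) := by
  classical
  intro Ω κ _ _ S c φ _ hrel s0 hs0 l hl hM
  refine coeff_zero (β := β) (M := M) S c (fun s j => φ s (x j)) (fun a ha => ?_) hs0 l hl hM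
  have h1 := hrel ⟨a, ha⟩
  rw [← h1]
  refine Finset.sum_congr rfl fun s _ => ?_
  rw [map_prod]
  congr 1
  exact Finset.prod_congr rfl fun j _ => (map_pow _ _ _).symm

section

variable {K : Type} [Field K] [Algebra ℂ K] {n N q d : ℕ} {β : Fin N → Fin q} {M : Fin q → ℕ}
  {t : Fin N → K} {BK : Place ℂ K → Prop}

/-- **The core.** -/
theorem core_boxL [Algebra.EssFiniteType ℂ K] (htr : Algebra.trdeg ℂ K = n)
    (hd : Algebra.trdeg ℂ (IntermediateField.adjoin ℂ (Set.range t)) = (d : ℕ))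
    {L : Type} [Field L] [Algebra ℂ L] [Algebra L K] [IsScalarTower ℂ L K]
    [FiniteDimensional L K] {BL : Place ℂ L → Prop}
    (hB : ∀ (P : Place ℂ L) (Q : Place ℂ K) (e : ℕ), Over Q P e → BK Q → BL P)
    {ω : (Fin n → Derivation ℂ K K) → K} (hω : TwLog n BK β M t ω)
    (htn : TraceNe ω ((IntermediateField.adjoin L (Set.range t)).restrictScalars ℂ)) :
    ((∀ Λ : Finset (Fin q), Λ.Nonempty → fdeg L β t Λ ≤ 1 + ∑ b ∈ Λ, M b) →
      (∃ η : (Fin n → Derivation ℂ L L) → L, LogSec ℂ L n 1 BL η ∧ ∃ D, η D ≠ 0) ∧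
      ∀ r : ℕ, r ≤ d →
        (∀ Λ : Finset (Fin q), Λ.Nonempty →
          Algebra.trdeg ℂ (IntermediateField.adjoin ℂ (t '' {j | β j ∉ Λ})) < (r : ℕ) →
          2 * fdeg L β t Λ ≤ 1 + ∑ b ∈ Λ, M b) →
        KodGe ℂ L n BL r) ∧
    ((∀ b, finrank L (IntermediateField.adjoin L (Set.range t)) ≤ M b) →
      KodGe ℂ L n BL (d - 1) ∧
      (KodGe ℂ (IntermediateField.adjoin ℂ (Set.range t)) d (fun _ => False) 0 →
        KodGe ℂ L n BL d)) := by
  classical
  have hTow : IsScalarTower ℂ (IntermediateField.adjoin L (Set.range t)) K :=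
    IsScalarTower.of_algebraMap_eq fun r => rfl
  obtain ⟨x', hx'⟩ : ∃ x' : Fin N → IntermediateField.adjoin L (Set.range t),
    ∀ j, (x' j : K) = t j :=
    ⟨fun j => ⟨t j, IntermediateField.subset_adjoin L _ ⟨j, rfl⟩⟩, fun _ => rfl⟩
  have h1 := fun hm => core_log (β := β) (M := M)
    (G := fun a : {a : Fin N → ℕ // ∀ b, ∑ j with β j = b, a j ≤ M b} => ∏ j, x' j ^ a.1 j)
    htr hd hB hω.1 (fun a P hP => by
      have h3 := hω.2 a.1 a.2 P hP
      have h4 : ((∏ j, x' j ^ a.1 j : IntermediateField.adjoin L (Set.range t)) : K) =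
          ∏ j, t j ^ a.1 j := by
        have h5 := map_prod (IntermediateField.adjoin L (Set.range t)).val
          (fun j => x' j ^ a.1 j) Finset.univ
        refine h5.trans (Finset.prod_congr rfl fun j _ => ?_)
        rw [map_pow, ← hx' j]
        rfl
      rw [h4]
      exact h3) hx' (sep_box β M x') htn hm
  have h1' : (∀ Λ : Finset (Fin q), Λ.Nonempty → fdeg L β t Λ ≤ 1 + ∑ b ∈ Λ, M b) →
      (∃ η : (Fin n → Derivation ℂ L L) → L, LogSec ℂ L n 1 BL η ∧ ∃ D, η D ≠ 0) ∧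
      ∀ r : ℕ, r ≤ d →
        (∀ Λ : Finset (Fin q), Λ.Nonempty →
          Algebra.trdeg ℂ (IntermediateField.adjoin ℂ (t '' {j | β j ∉ Λ})) < (r : ℕ) →
          2 * fdeg L β t Λ ≤ 1 + ∑ b ∈ Λ, M b) →
        KodGe ℂ L n BL r := fun hm => by
    obtain ⟨h2, h3⟩ := h1 fun Λ hΛ => (hm Λ hΛ).trans_eq (add_comm _ _)
    exact ⟨h2, fun r hr hk => h3 r hr fun Λ hΛ hlt => (hk Λ hΛ hlt).trans_eq (add_comm _ _)⟩
  refine ⟨h1', fun hm => ?_⟩
  obtain ⟨m, hmdef⟩ : ∃ m, m = finrank L (IntermediateField.adjoin L (Set.range t)) := ⟨_, rfl⟩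
  have hpos : 0 < m := by
    rw [hmdef]
    exact finrank_pos
  obtain ⟨η, hη, D, hD⟩ : ∃ η : (Fin n → Derivation ℂ L L) → L,
      LogSec ℂ L n 1 BL η ∧ ∃ D, η D ≠ 0 := by
    refine (h1' fun Λ hΛ => ?_).1
    obtain ⟨b, hb⟩ := hΛ
    have h2 : fdeg L β t Λ ≤ finrank L (IntermediateField.adjoin L (Set.range t)) := fdeg_le Λ
    have h3 : M b ≤ ∑ b ∈ Λ, M b := Finset.single_le_sum (f := M) (fun _ _ => Nat.zero_le _) hb
    have h4 := hm b
    omega
  have h0 : KodGe ℂ L n BL 0 :=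
    ⟨1, one_pos, fun _ => η, fun _ => hη, D, hD, algebraicIndependent_empty_type⟩
  rcases Nat.eq_zero_or_pos d with hd0 | hd0
  · subst hd0
    exact ⟨h0, fun _ => h0⟩
  · have hq : Nonempty (Fin q) := by
      by_contra hq
      rw [not_nonempty_iff] at hq
      have hN : IsEmpty (Fin N) := ⟨fun j => hq.elim (β j)⟩
      have h1 : Set.range t = ∅ := Set.range_eq_empty t
      rw [h1, IntermediateField.adjoin_empty] at hd
      have h2 : Algebra.trdeg ℂ (⊥ : IntermediateField ℂ K) = 0 := by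
        rw [(IntermediateField.botEquiv ℂ K).trdeg_eq]
        exact trdeg_eq_zero_iff.2 inferInstance
      rw [h2] at hd
      have h3 : d = 0 := by exact_mod_cast hd.symm
      omega
    have htw : IsTwistedLog n m BK t ω := by
      refine ⟨hω.1, fun a ha P hP => hω.2 a (fun b => ?_) P hP⟩
      have h1 : ∑ j with β j = b, a j ≤ ∑ j, a j :=
        Finset.sum_le_sum_of_subset (Finset.filter_subset _ _)
      have h2 := hm b
      omega
    obtain ⟨d', rfl⟩ : ∃ d', d = d' + 1 := ⟨d - 1, by omega⟩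
    exact ⟨core_lineL htr hd hB htw htn hpos hmdef.ge, fun hκ =>
      core_formL htr hd hB htw htn hpos hmdef.ge hκ⟩

/-- **Images which are separated by a map to a product of projective spaces.** -/
theorem main_sepL [Algebra.EssFiniteType ℂ K] (hK : Algebra.trdeg ℂ K = n)
    (hd : Algebra.trdeg ℂ (IntermediateField.adjoin ℂ (Set.range t)) = (d : ℕ))
    {ω : (Fin n → Derivation ℂ K K) → K} (hω : TwLog n BK β M t ω) (h0 : ∃ D, ω D ≠ 0)
    (L : Type) [Field L] [Algebra ℂ L] [Algebra L K] [IsScalarTower ℂ L K]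
    [FiniteDimensional L K] {BL : Place ℂ L → Prop}
    (hB : ∀ (P : Place ℂ L) (Q : Place ℂ K) (e : ℕ), Over Q P e → BK Q → BL P)
    (hsep : IntermediateField.adjoin L (Set.range t) = ⊤) :
    ((∀ Λ : Finset (Fin q), Λ.Nonempty → fdeg L β t Λ ≤ 1 + ∑ b ∈ Λ, M b) →
      (∃ η : (Fin n → Derivation ℂ L L) → L, LogSec ℂ L n 1 BL η ∧ ∃ D, η D ≠ 0) ∧
      ∀ r : ℕ, r ≤ d →
        (∀ Λ : Finset (Fin q), Λ.Nonempty →
          Algebra.trdeg ℂ (IntermediateField.adjoin ℂ (t '' {j | β j ∉ Λ})) < (r : ℕ) →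
          2 * fdeg L β t Λ ≤ 1 + ∑ b ∈ Λ, M b) →
        KodGe ℂ L n BL r) ∧
    ((∀ b, finrank L K ≤ M b) →
      KodGe ℂ L n BL (d - 1) ∧
      (KodGe ℂ (IntermediateField.adjoin ℂ (Set.range t)) d (fun _ => False) 0 →
        KodGe ℂ L n BL d)) := by
  classical
  have htop : (IntermediateField.adjoin L (Set.range t)).restrictScalars ℂ = ⊤ := by
    rw [hsep]
    rfl
  have htr := traceNe_top h0 htop
  have hfr : finrank L (IntermediateField.adjoin L (Set.range t)) = finrank L K := by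
    rw [hsep]
    exact IntermediateField.topEquiv.toLinearEquiv.finrank_eq
  obtain ⟨h1, h2⟩ := core_boxL (L := L) hK hd hB hω htr
  exact ⟨h1, fun hm => h2 fun b => by rw [hfr]; exact hm b⟩

end

section

variable {K : Type} [Field K] [Algebra ℂ K] {n N q : ℕ} {β : Fin N → Fin q} {M : Fin q → ℕ}
  {t : Fin N → K} {BK : Place ℂ K → Prop}

/-- **Fibrations by open curves.** -/
theorem main_fibL [Algebra.EssFiniteType ℂ K] (hK : Algebra.trdeg ℂ K = (n + 1 : ℕ))
    (hd : Algebra.trdeg ℂ (IntermediateField.adjoin ℂ (Set.range t)) = (n : ℕ))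
    (hcl : ∀ g : K, IsAlgebraic (IntermediateField.adjoin ℂ (Set.range t)) g →
      g ∈ IntermediateField.adjoin ℂ (Set.range t)) {J : Type} [Finite J]
    {ω : J → (Fin (n + 1) → Derivation ℂ K K) → K} (hω : ∀ j, TwLog (n + 1) BK β M t (ω j))
    (hspan : SpanFibL (IntermediateField.adjoin ℂ (Set.range t)) BK ω)
    (L : Type) [Field L] [Algebra ℂ L] [Algebra L K] [IsScalarTower ℂ L K]
    [FiniteDimensional L K] {BL : Place ℂ L → Prop}
    (hB : ∀ (P : Place ℂ L) (Q : Place ℂ K) (e : ℕ), Over Q P e → (BL P ↔ BK Q)) :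
    ((∀ Λ : Finset (Fin q), Λ.Nonempty → fdeg L β t Λ ≤ 1 + ∑ b ∈ Λ, M b) →
      [LogGenusZero L (n + 1) BL, ¬ KodGe ℂ L (n + 1) BL 0, ¬ Psef ℂ L (n + 1) BL,
        IsA1Uniruled ℂ L (n + 1) BL].TFAE ∧
      ∀ r : ℕ, r ≤ n →
        (∀ Λ : Finset (Fin q), Λ.Nonempty →
          Algebra.trdeg ℂ (IntermediateField.adjoin ℂ (t '' {j | β j ∉ Λ})) < (r : ℕ) →
          2 * fdeg L β t Λ ≤ 1 + ∑ b ∈ Λ, M b) →
        IsA1Uniruled ℂ L (n + 1) BL ∨ KodGe ℂ L (n + 1) BL r) ∧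
    ((∀ b, finrank L (IntermediateField.adjoin L (Set.range t)) ≤ M b) →
      (IsA1Uniruled ℂ L (n + 1) BL ∨ KodGe ℂ L (n + 1) BL (n - 1)) ∧
      (KodGe ℂ (IntermediateField.adjoin ℂ (Set.range t)) n (fun _ => False) 0 →
        IsA1Uniruled ℂ L (n + 1) BL ∨ KodGe ℂ L (n + 1) BL n)) := by
  classical
  have hess' : Algebra.EssFiniteType ℂ L := Pool.Agent.TH466.QG.ess_below (K := K)
  have hL : Algebra.trdeg ℂ L = (n + 1 : ℕ) := Pool.Agent.Y184.NT.trdeg_below (K := K) hK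
  have huni : (∀ j, ¬ TraceNe (ω j) ((IntermediateField.adjoin L
      (Set.range t)).restrictScalars ℂ)) → IsA1Uniruled ℂ L (n + 1) BL := fun htr =>
    uniruled_ofL hK hd hcl hspan L (fun P Q e h => (hB P Q e h).1) htr
  have hcore := fun j htn => core_boxL (L := L) (BL := BL) hK hd
    (fun P Q e h => (hB P Q e h).2) (hω j) htn
  by_cases htr : ∃ j, TraceNe (ω j) ((IntermediateField.adjoin L
      (Set.range t)).restrictScalars ℂ)
  · obtain ⟨j, htr⟩ := htr
    obtain ⟨h1, h2⟩ := hcore j htr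
    refine ⟨fun hm => ?_, fun hm => ⟨Or.inr (h2 hm).1, fun hκ => Or.inr ((h2 hm).2 hκ)⟩⟩
    obtain ⟨⟨η, hη, D, hD⟩, h3⟩ := h1 hm
    exact ⟨tfae_ofL hL fun hg => absurd (hg η hη D) hD, fun r hr hk => Or.inr (h3 r hr hk)⟩
  · push Not at htr
    have h1 := huni htr
    exact ⟨fun _ => ⟨tfae_ofL hL fun _ => h1, fun _ _ _ => Or.inl h1⟩,
      fun _ => ⟨Or.inl h1, fun _ => Or.inl h1⟩⟩

end

end Pool.Agent.K4H25.LF
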