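import Pool.Agent.K4H25.LF.F2
import Pool.Agent.R885.G3
import Pool.Agent.R882.KE
import Pool.Agent.R882.TLog

/-!
Logarithmic forms on complements of nondegenerate hypersurfaces in tori.
-/

set_option autoImplicit false
set_option linter.unusedSectionVars false
set_option linter.overlappingInstances false
set_option maxHeartbeats 4000000
set_option synthInstance.maxHeartbeats 400000

open FF Module Pool.Agent Pool.Agent.R885
open Pool.Agent.W602.GT (IsPluri RegAt LogAt Divisorial DerReg DerLog)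
open Pool.Agent.R882.LT (SecAt)
open Pool.Agent.W603.LV (Ge)

namespace Pool.Agent.K4H25.LF

section

variable {K : Type} [Field K] [Algebra ℂ K] {r : ℕ}

/-- the identification of the variables -/
def e0 (r : ℕ) : Fin 0 ⊕ Fin r ≃ Fin r := Equiv.emptySum (Fin 0) (Fin r)

/-- the empty system of equations -/
noncomputable def f0 (r : ℕ) : Fin 0 → (Fin r → ℤ) →₀ ℂ := fun l => l.elim0

/-- the coordinates -/
def C0 (r : ℕ) : Fin r → Fin r → ℤ := fun b => Pi.single b 1

theorem dt_C0 (G : Fin 0 → Fin r → K) : dt (e0 r) G (C0 r) = 1 := by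
  unfold dt
  have h1 : (Matrix.of fun a b => rows G (C0 r) a (e0 r b)) = (1 : Matrix _ _ K) := by
    ext a b
    rcases a with a | a
    · exact a.elim0
    rcases b with b | b
    · exact b.elim0
    rw [Matrix.of_apply]
    change ((Pi.single a (1 : ℤ) : Fin r → ℤ) b : K) = _
    by_cases hab : a = b
    · subst hab
      rw [Pi.single_eq_same, Matrix.one_apply_eq, Int.cast_one]
    · rw [Pi.single_eq_of_ne (Ne.symm hab), Matrix.one_apply_ne (by simpa using hab), Int.cast_zero]
  rw [h1, Matrix.det_one]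

/-- the logarithmic volume form -/
noncomputable def vol (x : Fin r → K) (D : Fin r → Derivation ℂ K K) : K :=
  (Matrix.of fun a i => lg x (D a) i).det

theorem om_vol (x : Fin r → K) (D : Fin r → Derivation ℂ K K) :
    Om (e0 r) x (f0 r) (C0 r) D = vol x D := by
  unfold Om vol
  rw [dt_C0, div_one, ← Matrix.det_transpose]
  congr 1
  ext a b
  rw [Matrix.transpose_apply]
  unfold cw
  rw [Matrix.of_apply, Matrix.of_apply, Finset.sum_eq_single b]
  · change ((Pi.single b (1 : ℤ) : Fin r → ℤ) b : K) * _ = _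
    rw [Pi.single_eq_same, Int.cast_one, one_mul]
  · intro i _ hi
    change ((Pi.single b (1 : ℤ) : Fin r → ℤ) i : K) * _ = 0
    rw [Pi.single_eq_of_ne hi, Int.cast_zero, zero_mul]
  · intro h
    exact absurd (Finset.mem_univ _) h

/-- the form `x ^ u vol / h` -/
noncomputable def th (x : Fin r → K) (h : (Fin r → ℤ) →₀ ℂ) (u : Fin r → ℤ)
    (D : Fin r → Derivation ℂ K K) : K :=
  R885.mono x u * vol x D / ev x h

theorem th_pluri (x : Fin r → K) (h : (Fin r → ℤ) →₀ ℂ) (u : Fin r → ℤ) :
    IsPluri 1 (th x h u) := by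
  intro B D
  have h1 := om_pluri (e0 r) x (f0 r) (C0 r) 1 B D
  change Om (e0 r) x (f0 r) (C0 r) (fun i => ∑ j, B i j • D j) ^ 1 =
    B.det ^ 1 * Om (e0 r) x (f0 r) (C0 r) D ^ 1 at h1
  rw [pow_one, pow_one, pow_one, om_vol, om_vol] at h1
  unfold th
  rw [h1, pow_one]
  ring

/-- the boundary -/
def Bd (S : Set (Fin r → ℤ)) (x : Fin r → K) (h : (Fin r → ℤ) →₀ ℂ) (P : Place ℂ K) : Prop :=
  vec P x ∈ S ∨ mn (vec P x) h < P.ord (ev x h)

/-- the exponent `u` satisfies the inequalities -/
def InP (S : Set (Fin r → ℤ)) (h : (Fin r → ℤ) →₀ ℂ) (u : Fin r → ℤ) : Prop :=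
  ∀ v : Fin r → ℤ, v ≠ 0 → mn v h ≤ u ⬝ᵥ v ∧ (v ∉ S → 1 + mn v h ≤ u ⬝ᵥ v)

/-- the determinant at a place where `h` vanishes -/
theorem vol_van {x : Fin r → K} (hx : ∀ i, x i ≠ 0) {h : (Fin r → ℤ) →₀ ℂ} (P : Place ℂ K)
    (hnd : NonDeg P.RF (fun _ : Unit => h) (vec P x)) {m0 : Fin r → ℤ}
    (hm0 : m0 ⬝ᵥ vec P x = mn (vec P x) h) (hvan : Van P x h) (he0 : ev' x h m0 ≠ 0)
    {D : Fin r → Derivation ℂ K K} (hD : ∀ a, DerLog P (D a)) :
    Ge P (P.ord (ev' x h m0)) (vol x D) := by
  classical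
  have hli := nd_placeW P hx (J := Unit) (f := fun _ => h) (fun _ => hvan) hnd
    (m0 := fun _ => m0) (fun _ => hm0)
  have hne : ∃ i, P.red (gr' x h m0 i) ≠ 0 := by
    by_contra hcon
    push Not at hcon
    exact hli.ne_zero () (funext hcon)
  obtain ⟨i, hi⟩ := hne
  have hreg := reg_gr' P hx h hm0 i
  rw [Ne, P.red_eq_zero_iff hreg] at hi
  push Not at hi
  obtain ⟨hi0, hi1⟩ := hi
  have hord : P.ord (gr' x h m0 i) = 0 := by
    have := (P.reg_iff hi0).1 hreg
    omega
  obtain ⟨A, hA⟩ : ∃ A : Matrix (Fin r) (Fin r) K, A = Matrix.of fun a i => lg x (D a) i :=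
    ⟨_, rfl⟩
  have hAe : ∀ a i, Ge P 0 (A a i) := by
    intro a i
    rw [hA]
    exact hD a (x i)
  have hb : ∀ a, Ge P (P.ord (ev' x h m0)) ((A.mulVec fun i => gr' x h m0 i) a) := by
    intro a
    have h1 := gr'_lgW hx h m0 (D a)
    have h2 : (A.mulVec fun i => gr' x h m0 i) a = ∑ i, gr' x h m0 i * lg x (D a) i := by
      rw [hA]
      rw [Matrix.mulVec, dotProduct]
      exact Finset.sum_congr rfl fun i _ => mul_comm (lg x (D a) i) (gr' x h m0 i)
    rw [h2, h1]
    refine Ge.add ?_ ?_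
    · have h3 : Ge P 0 (D a (ev' x h m0) / ev' x h m0) := hD a _
      have h4 : D a (ev' x h m0) = (D a (ev' x h m0) / ev' x h m0) * ev' x h m0 := by
        field_simp
      rw [h4]
      have h5 : Ge P (P.ord (ev' x h m0)) (ev' x h m0) := Or.inr le_rfl
      simpa using h3.mul h5
    · have h5 : Ge P (P.ord (ev' x h m0)) (ev' x h m0) := Or.inr le_rfl
      have h6 : Ge P 0 (∑ i, (m0 i : K) * lg x (D a) i) := by
        apply Ge.sum
        intro i _
        have h7 : Ge P 0 ((m0 i : ℤ) : K) := reg_int P (m0 i)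
        have h8 : Ge P 0 (lg x (D a) i) := hD a (x i)
        simpa using h7.mul h8
      simpa using h5.mul h6
  have hadj : ∀ a b, Ge P 0 (A.adjugate a b) := by
    intro a b
    rw [Matrix.adjugate_apply]
    refine Pool.Agent.W619.PQ.ge_det P _ fun c d => ?_
    rw [Matrix.updateRow_apply]
    split_ifs
    · by_cases hd : d = a
      · subst hd
        rw [Pi.single_eq_same]
        exact Or.inr (by rw [P.ord_one])
      · rw [Pi.single_eq_of_ne hd]
        exact Or.inl rfl
    · exact hAe c d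
  have hkey : A.det * gr' x h m0 i =
      ∑ a, A.adjugate i a * (A.mulVec fun i => gr' x h m0 i) a := by
    have h1 : (A.adjugate.mulVec (A.mulVec fun i => gr' x h m0 i)) i = A.det * gr' x h m0 i := by
      rw [Matrix.mulVec_mulVec, Matrix.adjugate_mul, Matrix.smul_mulVec, Matrix.one_mulVec]
      rfl
    exact h1.symm
  have h1 : Ge P (P.ord (ev' x h m0)) (A.det * gr' x h m0 i) := by
    rw [hkey]
    apply Ge.sum
    intro a _
    have h2 := (hadj i a).mul (hb a)
    rwa [zero_add] at h2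
  have h2 : vol x D = A.det := by
    unfold vol
    rw [hA]
  rw [h2]
  by_cases hd0 : A.det = 0
  · exact Or.inl hd0
  · right
    have h3 := h1.resolve_left (mul_ne_zero hd0 hi0)
    rw [P.ord_mul hd0 hi0, hord, add_zero] at h3
    exact h3

/-- **The forms are logarithmic.** -/
theorem th_sec {x : Fin r → K} (hx : ∀ i, x i ≠ 0) {h : (Fin r → ℤ) →₀ ℂ} (hh0 : h ≠ 0)
    (hhx : ev x h ≠ 0) (hnd : ∀ v, NonDeg ℂ (fun _ : Unit => h) v) {S : Set (Fin r → ℤ)}
    {u : Fin r → ℤ} (hu : InP S h u) (P : Place ℂ K) : SecAt (Bd S x h) P (th x h u) := by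
  classical
  obtain ⟨m0, -, hm0⟩ := exists_mn hh0 (vec P x)
  have hev := ev_eq hx h m0
  have he0 : ev' x h m0 ≠ 0 := by
    intro h0
    rw [h0, mul_zero] at hev
    exact hhx hev
  have hord : P.ord (ev x h) = mn (vec P x) h + P.ord (ev' x h m0) := by
    rw [hev, P.ord_mul (mono_ne hx _) he0, ord_mono P hx, hm0]
  have hordth : ∀ D : Fin r → Derivation ℂ K K, vol x D ≠ 0 → P.ord (th x h u D) =
      u ⬝ᵥ vec P x + P.ord (vol x D) - mn (vec P x) h - P.ord (ev' x h m0) := by
    intro D hD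
    unfold th
    rw [P.ord_div (mul_ne_zero (mono_ne hx _) hD) hhx, P.ord_mul (mono_ne hx _) hD,
      ord_mono P hx, hord]
    ring
  have he1 : 0 ≤ P.ord (ev' x h m0) := by
    have h1 : Ge P 0 (ev' x h m0) := by
      unfold ev' Finsupp.sum
      apply Ge.sum
      intro m hm
      have h2 : Ge P 0 (algebraMap ℂ K (h m)) := by
        by_cases h3 : h m = 0
        · rw [h3, map_zero]
          exact Or.inl rfl
        · exact Or.inr (P.ord_const h3).ge
      have h3 : Ge P 0 (R885.mono x (m - m0)) := by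
        right
        rw [ord_mono P hx, sub_dotProduct, hm0]
        exact sub_nonneg.2 (mn_le hm)
      simpa using h2.mul h3
    exact h1.resolve_left he0
  refine ⟨fun D hD => ?_, fun hB D hD => ?_⟩
  · by_cases hv0 : vol x D = 0
    · left
      unfold th
      rw [hv0, mul_zero, zero_div]
    right
    rw [hordth D hv0]
    have h1 : P.ord (ev' x h m0) ≤ P.ord (vol x D) := by
      by_cases h2 : 0 < P.ord (ev' x h m0)
      · refine (vol_van hx P (Pool.Agent.R885.nd_ext (hnd _) P.RF) hm0 ?_ he0 hD).resolve_left hv0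
        exact Or.inr (by rw [hord]; omega)
      · have h3 : Ge P 0 (vol x D) :=
          Pool.Agent.W619.PQ.ge_det P _ fun a i => hD a (x i)
        have h4 := h3.resolve_left hv0
        omega
    by_cases hV0 : vec P x = 0
    · rw [hV0, dotProduct_zero, mn_zero hh0]
      omega
    · have h3 := (hu _ hV0).1
      omega
  · unfold Bd at hB
    push Not at hB
    obtain ⟨hS, hle⟩ := hB
    have hz : P.ord (ev' x h m0) = 0 := by omega
    obtain ⟨h1, h2⟩ := om_ge P (e := e0 r) hx (f := f0 r) (fun l => l.elim0) (fun l => l.elim0)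
      (fun c _ _ => linearIndependent_empty_type) (C0 := C0 r) (by rw [dt_C0]; exact one_ne_zero) (D := D) hD
    rw [om_vol] at h1 h2
    by_cases hv0 : vol x D = 0
    · left
      unfold th
      rw [hv0, mul_zero, zero_div]
    right
    rw [hordth D hv0, hz]
    by_cases hV0 : vec P x = 0
    · have h3 := (h2 hV0).resolve_left hv0
      rw [hV0, dotProduct_zero, mn_zero hh0]
      omega
    · have h3 := (hu _ hV0).2 hS
      have h4 := h1.resolve_left hv0
      simp only [Finset.univ_eq_empty, Finset.sum_empty, sub_zero] at h4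
      omega

/-- the products with monomials -/
theorem th_mul {x : Fin r → K} (hx : ∀ i, x i ≠ 0) (h : (Fin r → ℤ) →₀ ℂ) (u w : Fin r → ℤ)
    (D : Fin r → Derivation ℂ K K) : R885.mono x w * th x h u D = th x h (u + w) D := by
  unfold th
  rw [R885.mono_add hx]
  ring

end

end Pool.Agent.K4H25.LF
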