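import Pool.Agent.R882.KC
import Pool.Agent.R882.KB

/-!
Logarithmic differentials on the projective line.
-/

set_option autoImplicit false
set_option linter.unusedSectionVars false
set_option linter.overlappingInstances false
set_option maxHeartbeats 4000000
set_option synthInstance.maxHeartbeats 400000

open Polynomial IntermediateField Module FF Pool.Agent.W619.PQ Pool.Agent.W603.LV

namespace Pool.Agent.K4H25.LF

variable {k : Type} [Field k] [CharZero k] [IsAlgClosed k] {E : Type} [Field E] [Algebra k E]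
  [IsFF k E]

open Pool.Agent.R882.KR (poly_of_reg)

/-- logarithmic differentials on the line, with poles in the zeros of `H`, and in `0` if `l = 0`, and
in infinity if `a ≤ hi` -/
theorem span_line {x : E} (hx : k⟮x⟯ = ⊤) {H : k[X]} {a : ℤ} (hHdeg : (H.natDegree : ℤ) = a)
    (hH0 : H ≠ 0) {D : Derivation k E E} (hD : D ≠ 0) {l : ℕ} (hl : l ≤ 1) {hi : ℤ}
    (hhi : a - 1 ≤ hi) {FBd : Place k E → Prop} {f : E}
    (hf1 : ∀ Q, vo Q D ≤ Q.ord f + 1) (hf2 : ∀ Q, ¬ FBd Q → vo Q D ≤ Q.ord f)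
    (hfin : ∀ Q, FBd Q → 0 ≤ Q.ord x → 0 < Q.ord (aeval x H) ∨ (0 < Q.ord x ∧ l = 0))
    (hinf : ∀ Q, FBd Q → Q.ord x < 0 → a ≤ hi) :
    f ∈ Submodule.span k {z : E | ∃ i : ℤ, (l : ℤ) ≤ i ∧ i ≤ hi ∧
      z = x ^ i * (D x / x) / aeval x H} := by
  classical
  have ht := transcendental_of_top hx
  have hx0 : x ≠ 0 := by
    rintro rfl
    exact ht isAlgebraic_zero
  have hDx : D x ≠ 0 := der_ne_zero hD ht
  have hHx : aeval x H ≠ 0 := fun h => hH0 ((transcendental_iff_injective.1 ht) (by rw [h, map_zero]))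
  obtain ⟨D1, hD1⟩ : ∃ D1, D1 = (D x)⁻¹ • D := ⟨_, rfl⟩
  have hD1x : D1 x = 1 := by
    rw [hD1, Derivation.smul_apply, smul_eq_mul, inv_mul_cancel₀ hDx]
  have hD10 : D1 ≠ 0 := by
    intro h
    rw [h] at hD1x
    exact zero_ne_one hD1x
  have hvo : ∀ Q : Place k E, vo Q D1 = vo Q D - Q.ord (D x) := by
    intro Q
    rw [hD1, vo_smul Q hD (inv_ne_zero hDx), Q.ord_inv]
    ring
  obtain ⟨g, hg⟩ : ∃ g, g = f / D x := ⟨_, rfl⟩
  have hg1 : ∀ Q : Place k E, Ge Q (vo Q D1 - 1) g := by
    intro Q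
    by_cases hg0 : g = 0
    · exact Or.inl hg0
    right
    have hf0 : f ≠ 0 := by
      rintro rfl
      exact hg0 (by rw [hg, zero_div])
    rw [hvo, hg, Q.ord_div hf0 hDx]
    have := hf1 Q
    omega
  have hg2 : ∀ Q : Place k E, ¬ FBd Q → Ge Q (vo Q D1) g := by
    intro Q hQ
    by_cases hg0 : g = 0
    · exact Or.inl hg0
    right
    have hf0 : f ≠ 0 := by
      rintro rfl
      exact hg0 (by rw [hg, zero_div])
    rw [hvo, hg, Q.ord_div hf0 hDx]
    have := hf2 Q hQ
    omega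
  have hvfin : ∀ Q : Place k E, 0 ≤ Q.ord x → vo Q D1 = 0 := by
    intro Q hQ
    obtain ⟨c, hc⟩ := exists_const (P := Q) (f := x) (Or.inr hQ)
    have hxc : x - algebraMap k E c ≠ 0 := by
      intro h0
      rw [sub_eq_zero] at h0
      rw [h0] at ht
      exact ht (isAlgebraic_algebraMap c)
    have hc1 := hc.resolve_left hxc
    obtain ⟨P, hP, hP2⟩ := zero_unique (top_sub hx c)
    have h1 : Q = P := hP2 Q (by omega)
    rw [← h1] at hP
    rw [← vo_eq Q hP hD10, map_sub, hD1x, Derivation.map_algebraMap, sub_zero, Q.ord_one]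
  have hvinf : ∀ Q : Place k E, Q.ord x < 0 → vo Q D1 = 2 ∧ Q.ord x = -1 := by
    intro Q hQ
    obtain ⟨P, hP, hP2⟩ := pole_unique hx
    have h1 : Q = P := hP2 Q hQ
    rw [← h1] at hP
    have h2 : Q.ord x⁻¹ = 1 := by
      rw [Q.ord_inv, hP]
      norm_num
    refine ⟨?_, hP⟩
    rw [← vo_eq Q h2 hD10, Derivation.leibniz_inv, hD1x, smul_eq_mul, mul_one, Q.ord_neg,
      Q.ord_pow, h2]
    norm_num
  have hHfin : ∀ Q : Place k E, 0 ≤ Q.ord x → 0 ≤ Q.ord (aeval x H) := by
    intro Q hQ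
    have h1 : Ge Q 0 (aeval x H) := by
      rw [aeval_eq_sum_range]
      apply Ge.sum
      intro i _
      rw [Algebra.smul_def]
      have h4 : Ge Q 0 (x ^ i) := by
        right
        rw [Q.ord_pow]
        positivity
      simpa using (Ge.const (P := Q) (H.coeff i)).mul h4
    exact h1.resolve_left hHx
  obtain ⟨p, hp, hpd⟩ := poly_of_reg hx (g := g * aeval x H * x ^ (1 - l)) (fun Q hQ => by
      by_cases hg0 : g = 0
      · left
        rw [hg0, zero_mul, zero_mul]
      right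
      rw [Q.ord_mul (mul_ne_zero hg0 hHx) (pow_ne_zero _ hx0), Q.ord_mul hg0 hHx, Q.ord_pow]
      have h1 := hHfin Q hQ
      have h2 := hvfin Q hQ
      have h5 : 0 ≤ ((1 - l : ℕ) : ℤ) * Q.ord x := by positivity
      by_cases hB : FBd Q
      · have h3 := (hg1 Q).resolve_left hg0
        rcases hfin Q hB hQ with h4 | ⟨h4, h6⟩
        · omega
        · subst h6
          simp only [Nat.sub_zero, Nat.cast_one, one_mul]
          omega
      · have h3 := (hg2 Q hB).resolve_left hg0
        omega) (m := hi - l) (fun Q hQ => by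
      by_cases hg0 : g = 0
      · left
        rw [hg0, zero_mul, zero_mul]
      right
      obtain ⟨h1, h2⟩ := hvinf Q hQ
      obtain ⟨-, h6⟩ := ord_aeval_of_neg Q hQ hH0
      rw [Q.ord_mul (mul_ne_zero hg0 hHx) (pow_ne_zero _ hx0), Q.ord_mul hg0 hHx, Q.ord_pow, h6,
        hHdeg, h2]
      have h7 : ((1 - l : ℕ) : ℤ) = 1 - l := by omega
      rw [h7]
      by_cases hB : FBd Q
      · have h3 := (hg1 Q).resolve_left hg0
        have h4 := hinf Q hB hQ
        omega
      · have h3 := (hg2 Q hB).resolve_left hg0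
        omega)
  have hfeq : f = ∑ i ∈ p.support, p.coeff i •
      (x ^ ((i : ℤ) + l) * (D x / x) / aeval x H) := by
    have h1 : f = g * D x := by
      rw [hg, div_mul_cancel₀ _ hDx]
    have h2 : g = aeval x p / (aeval x H * x ^ (1 - l)) := by
      rw [hp]
      field_simp
    rw [h1, h2, aeval_eq_sum_range' (n := p.natDegree + 1) (Nat.lt_succ_self _)]
    have h3 : ∑ i ∈ Finset.range (p.natDegree + 1), p.coeff i • x ^ i =
        ∑ i ∈ p.support, p.coeff i • x ^ i := by
      symm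
      apply Finset.sum_subset
      · intro i hi
        rw [Finset.mem_range]
        exact Nat.lt_succ_of_le (le_natDegree_of_mem_supp i hi)
      · intro i _ hi
        rw [notMem_support_iff.1 hi, zero_smul]
    rw [h3, Finset.sum_div, Finset.sum_mul]
    refine Finset.sum_congr rfl fun i _ => ?_
    rw [Algebra.smul_def, Algebra.smul_def]
    have h4 : x ^ ((i : ℤ) + l) * x ^ (1 - l) = x ^ i * x := by
      rw [zpow_add₀ hx0, zpow_natCast, zpow_natCast, mul_assoc, ← pow_add]
      have h5 : l + (1 - l) = 1 := by omega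
      rw [h5, pow_one]
    have h6 : x ^ (1 - l) ≠ 0 := pow_ne_zero _ hx0
    have h7 : x ^ i = x ^ ((i : ℤ) + l) * x ^ (1 - l) / x := by
      rw [h4, mul_div_cancel_right₀ _ hx0]
    rw [h7]
    generalize x ^ ((i : ℤ) + l) = y
    generalize x ^ (1 - l) = z at h6 ⊢
    field_simp
  rw [hfeq]
  refine Submodule.sum_mem _ fun i hi' => Submodule.smul_mem _ _ (Submodule.subset_span
    ⟨(i : ℤ) + l, by omega, ?_, rfl⟩)
  have := hpd i hi'
  omega

end Pool.Agent.K4H25.LF
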