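import Pool.Agent.K4H25.LF.F3
import Pool.Agent.K4H25.LF.F4
import Pool.Agent.R882.KE

/-!
The logarithmic differentials of the fibres of the complement of a hypersurface.
-/

set_option autoImplicit false
set_option linter.unusedSectionVars false
set_option linter.overlappingInstances false
set_option maxHeartbeats 4000000
set_option synthInstance.maxHeartbeats 400000

open FF Module Pool.Agent Pool.Agent.R885
open Pool.Agent.W602.GT (IsPluri RegAt LogAt Divisorial DerReg DerLog)
open Pool.Agent.R882.LT (SecAt)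
open Pool.Agent.W603.LV (Ge vo)
open scoped Polynomial

namespace Pool.Agent.K4H25.LF

open Pool.Agent.K4H25.LP (SpanFibL FB)

/-- Laurent polynomials at independent points -/
theorem ev_ne_indep {K : Type} [Field K] [Algebra ℂ K] {r : ℕ} {x : Fin r → K}
    (hx : AlgebraicIndependent ℂ x) (hx0 : ∀ i, x i ≠ 0) {g : (Fin r → ℤ) →₀ ℂ} (hg : g ≠ 0) :
    ev x g ≠ 0 := by
  classical
  obtain ⟨N, hN⟩ : ∃ N : Fin r → ℕ, N = fun i => ∑ m ∈ g.support, (m i).natAbs := ⟨_, rfl⟩
  have hpos : ∀ m ∈ g.support, ∀ i, 0 ≤ m i + N i := by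
    intro m hm i
    have h1 : (m i).natAbs ≤ N i := by
      rw [hN]
      exact Finset.single_le_sum (f := fun m : Fin r → ℤ => (m i).natAbs)
        (fun _ _ => Nat.zero_le _) hm
    omega
  obtain ⟨T, hT⟩ : ∃ T : (Fin r → ℤ) → (Fin r →₀ ℕ), ∀ m i, T m i = (m i + N i).toNat :=
    ⟨fun m => Finsupp.equivFunOnFinite.symm fun i => (m i + N i).toNat, fun _ _ => rfl⟩
  obtain ⟨P, hP⟩ : ∃ P : MvPolynomial (Fin r) ℂ,
    P = ∑ m ∈ g.support, MvPolynomial.monomial (T m) (g m) := ⟨_, rfl⟩
  have hP0 : P ≠ 0 := by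
    obtain ⟨m0, hm0⟩ := Finsupp.support_nonempty_iff.2 hg
    intro h0
    have h1 := congrArg (MvPolynomial.coeff (T m0)) h0
    rw [hP, MvPolynomial.coeff_sum, MvPolynomial.coeff_zero, Finset.sum_eq_single m0] at h1
    · rw [MvPolynomial.coeff_monomial, if_pos rfl] at h1
      exact (Finsupp.mem_support_iff.1 hm0) h1
    · intro m hm hne
      rw [MvPolynomial.coeff_monomial, if_neg]
      intro h2
      apply hne
      funext i
      have h3 := DFunLike.congr_fun h2 i
      rw [hT, hT] at h3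
      have h4 := hpos m hm i
      have h5 := hpos m0 hm0 i
      omega
    · intro h2
      exact absurd hm0 h2
  have hae : MvPolynomial.aeval x P = R885.mono x (fun i => (N i : ℤ)) * ev x g := by
    rw [hP, map_sum]
    unfold ev Finsupp.sum
    rw [Finset.mul_sum]
    refine Finset.sum_congr rfl fun m hm => ?_
    rw [MvPolynomial.aeval_monomial, Finsupp.prod_fintype _ _ fun _ => pow_zero _]
    have h1 : ∏ i, x i ^ T m i = R885.mono x (fun i => (N i : ℤ)) * R885.mono x m := by
      rw [← R885.mono_add hx0]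
      unfold R885.mono
      refine Finset.prod_congr rfl fun i _ => ?_
      rw [hT, ← zpow_natCast, Int.toNat_of_nonneg (hpos m hm i), Pi.add_apply, add_comm]
    rw [h1]
    ring
  intro h0
  rw [h0, mul_zero] at hae
  exact hP0 ((algebraicIndependent_iff.1 hx) P hae)

section

variable {K : Type} [Field K] [Algebra ℂ K] {n : ℕ}

/-- the exponents of the last variable are between `0` and `a`, and both values occur -/
structure Width (h : (Fin (n + 1) → ℤ) →₀ ℂ) (a : ℕ) : Prop where
  ge : ∀ m ∈ h.support, 0 ≤ m (Fin.last n)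
  le : ∀ m ∈ h.support, m (Fin.last n) ≤ a
  top : ∃ m ∈ h.support, m (Fin.last n) = a

/-- the equation of the fibre -/
theorem fib_poly {Λ F : Type} [Field Λ] [Field F] [Algebra ℂ Λ] [Algebra Λ F] [Algebra ℂ F]
    [IsScalarTower ℂ Λ F] (φ : K →ₐ[ℂ] F) {x : Fin (n + 1) → K}
    (hxi : AlgebraicIndependent ℂ x) (hx0 : ∀ i, x i ≠ 0)
    {h : (Fin (n + 1) → ℤ) →₀ ℂ} {a : ℕ} (hT : Width h a) {t' : Fin n → Λ}
    (ht' : ∀ l, algebraMap Λ F (t' l) = φ (x l.castSucc)) :
    ∃ H : Λ[X], H.natDegree = a ∧ H ≠ 0 ∧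
      Polynomial.aeval (φ (x (Fin.last n))) H = φ (ev x h) := by
  classical
  obtain ⟨b, hb⟩ : ∃ b : (Fin (n + 1) → ℤ) → Λ, b = fun m =>
    algebraMap ℂ Λ (h m) * ∏ l : Fin n, t' l ^ m l.castSucc := ⟨_, rfl⟩
  obtain ⟨H, hH⟩ : ∃ H : Λ[X], H = ∑ m ∈ h.support,
    Polynomial.monomial (m (Fin.last n)).toNat (b m) := ⟨_, rfl⟩
  have hbφ : ∀ m, algebraMap Λ F (b m) * φ (x (Fin.last n)) ^ m (Fin.last n) =
      φ (algebraMap ℂ K (h m) * R885.mono x m) := by
    intro m
    have h1 : R885.mono x m = (∏ l : Fin n, x l.castSucc ^ m l.castSucc) *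
        x (Fin.last n) ^ m (Fin.last n) := by
      unfold R885.mono
      rw [Fin.prod_univ_castSucc]
    rw [hb, h1, map_mul, map_mul, map_mul, φ.commutes, map_prod, map_prod, map_zpow₀,
      ← IsScalarTower.algebraMap_apply ℂ Λ F]
    simp only [map_zpow₀, ht']
    ring
  have hcoef : H.coeff a = ∑ m ∈ h.support.filter (fun m => m (Fin.last n) = (a : ℤ)), b m := by
    rw [hH, Polynomial.finsetSum_coeff, Finset.sum_filter]
    refine Finset.sum_congr rfl fun m hm => ?_
    rw [Polynomial.coeff_monomial]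
    have h1 := hT.ge m hm
    by_cases h2 : m (Fin.last n) = (a : ℤ)
    · rw [if_pos h2, if_pos (by omega)]
    · rw [if_neg h2, if_neg (by omega)]
  have hcoef0 : H.coeff a ≠ 0 := by
    obtain ⟨g, hg⟩ : ∃ g : (Fin (n + 1) → ℤ) →₀ ℂ, g = h.filter fun m => m (Fin.last n) = (a : ℤ) :=
      ⟨_, rfl⟩
    have hg0 : g ≠ 0 := by
      obtain ⟨m, hm, hma⟩ := hT.top
      intro h0
      have h1 : g m = h m := by
        rw [hg]
        exact Finsupp.filter_apply_pos _ _ hma
      rw [h0, Finsupp.zero_apply] at h1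
      exact (Finsupp.mem_support_iff.1 hm) h1.symm
    have h1 := ev_ne_indep hxi hx0 hg0
    have hX0 : φ (x (Fin.last n)) ≠ 0 := (map_ne_zero φ).2 (hx0 _)
    have h2 : algebraMap Λ F (H.coeff a) * φ (x (Fin.last n)) ^ (a : ℤ) = φ (ev x g) := by
      rw [hcoef, map_sum, Finset.sum_mul]
      unfold ev Finsupp.sum
      rw [map_sum]
      have h3 : g.support = h.support.filter fun m => m (Fin.last n) = (a : ℤ) := by
        rw [hg, Finsupp.support_filter]
      rw [h3]
      refine Finset.sum_congr rfl fun m hm => ?_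
      obtain ⟨-, h4⟩ := Finset.mem_filter.1 hm
      have h5 : g m = h m := by
        rw [hg]
        exact Finsupp.filter_apply_pos _ _ h4
      rw [h5, ← hbφ, h4]
    intro h0
    rw [h0, map_zero, zero_mul] at h2
    exact h1 ((map_eq_zero φ).1 h2.symm)
  refine ⟨H, le_antisymm ?_ (Polynomial.le_natDegree_of_ne_zero hcoef0), ?_, ?_⟩
  · rw [hH]
    refine Polynomial.natDegree_sum_le_of_forall_le _ _ fun m hm => ?_
    refine (Polynomial.natDegree_monomial_le _).trans ?_
    have h1 := hT.le m hm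
    omega
  · rintro rfl
    simp at hcoef0
  · rw [hH, map_sum]
    unfold ev Finsupp.sum
    rw [map_sum]
    refine Finset.sum_congr rfl fun m hm => ?_
    rw [Polynomial.aeval_monomial, ← hbφ, ← zpow_natCast, Int.toNat_of_nonneg (hT.ge m hm)]

theorem vol_frame {r : ℕ} {x : Fin r → K} {E : Fin r → Derivation ℂ K K}
    (hE : ∀ i j, E i (x j) = if i = j then 1 else 0) : vol x E = (∏ b, x b)⁻¹ := by
  classical
  have h1 : (Matrix.of fun a i => lg x (E a) i) = Matrix.diagonal fun b => (x b)⁻¹ := by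
    ext a b
    rw [Matrix.of_apply]
    unfold lg
    rw [hE]
    by_cases hab : a = b
    · subst hab
      rw [if_pos rfl, Matrix.diagonal_apply_eq, one_div]
    · rw [if_neg hab, Matrix.diagonal_apply_ne _ hab, zero_div]
  unfold vol
  rw [h1, Matrix.det_diagonal, Finset.prod_inv_distrib]

theorem vol_pluri {r : ℕ} (x : Fin r → K) : IsPluri 1 (fun D => vol x D) := by
  intro B D
  have h1 := om_pluri (e0 r) x (f0 r) (C0 r) 1 B D
  change Om (e0 r) x (f0 r) (C0 r) (fun i => ∑ j, B i j • D j) ^ 1 =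
    B.det ^ 1 * Om (e0 r) x (f0 r) (C0 r) D ^ 1 at h1
  rw [pow_one, pow_one, pow_one, om_vol, om_vol] at h1
  rw [pow_one]
  exact h1

/-- **The fibres of the complement of a hypersurface.** -/
theorem span_hyp {x : Fin (n + 1) → K} (hx0 : ∀ i, x i ≠ 0) (hxi : AlgebraicIndependent ℂ x)
    (hgen : IntermediateField.adjoin ℂ (Set.range x) = ⊤) {h : (Fin (n + 1) → ℤ) →₀ ℂ}
    {a : ℕ} (hT : Width h a) {S : Set (Fin (n + 1) → ℤ)} (hS0 : (0 : Fin (n + 1) → ℤ) ∉ S)
    {B : IntermediateField ℂ K} (hB : ∀ l : Fin n, x l.castSucc ∈ B)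
    (hX : ¬ IsAlgebraic B (x (Fin.last n))) {l : ℕ} (hl : l ≤ 1) {hi : ℤ}
    (hhi : (a : ℤ) - 1 ≤ hi)
    (hlS : (Pi.single (Fin.last n) 1 : Fin (n + 1) → ℤ) ∈ S → l = 0)
    (hhS : (Pi.single (Fin.last n) (-1) : Fin (n + 1) → ℤ) ∈ S → (a : ℤ) ≤ hi)
    {u : ℤ → Fin (n + 1) → ℤ} (hu : ∀ i, u i (Fin.last n) = i) :
    SpanFibL (J := {i : ℤ // (l : ℤ) ≤ i ∧ i ≤ hi}) B (Bd S x h) (fun i => th x h (u i)) := by
  classical
  intro Λ F _ _ _ _ _ _ _ φ hFF hgenF hBΛ htransc t ξ ht hZ E hE D hD f hf0 hf1 hf2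
  have hΛ0 : CharZero Λ := charZero_of_injective_algebraMap (algebraMap ℂ Λ).injective
  have hh0 : h ≠ 0 := by
    obtain ⟨m, hm, -⟩ := hT.top
    rintro rfl
    simp at hm
  have hhx : ev x h ≠ 0 := ev_ne_indep hxi hx0 hh0
  have hbas : IsTranscendenceBasis ℂ x := by
    rw [hxi.isTranscendenceBasis_iff_isAlgebraic]
    have h3 : Algebra.IsAlgebraic (IntermediateField.adjoin ℂ (Set.range x)) K := by
      rw [hgen]
      exact ⟨fun z => isAlgebraic_algebraMap (⟨z, trivial⟩ : (⊤ : IntermediateField ℂ K))⟩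
    exact Pool.Agent.W602.GT.alg_adjoin h3
  let iA : Algebra K F := φ.toRingHom.toAlgebra
  have hTw : IsScalarTower ℂ K F := IsScalarTower.of_algebraMap_eq fun z => (φ.commutes z).symm
  have hφ : ∀ z, algebraMap K F z = φ z := fun _ => rfl
  have hinj : Function.Injective φ := (φ : K →+* F).injective
  choose t' ht' using fun l : Fin n => hBΛ (x l.castSucc) (hB l)
  obtain ⟨H, hHa, hH0, hHe⟩ := fib_poly φ hxi hx0 hT ht'
  have hDne : D ≠ 0 := by
    intro h
    rw [h] at hD
    exact zero_ne_one hD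
  -- the frame of the coordinates
  obtain ⟨E0, hE0'⟩ := Pool.Agent.W602.GT.exists_dual hbas
  have hE0 : ∀ i j : Fin (n + 1), E0 i (x j) = if i = j then 1 else 0 := by
    intro i j
    have h1 := congrFun (congrFun hE0' i) j
    rw [Matrix.of_apply, Matrix.one_apply] at h1
    exact h1
  -- the derivation of the fibre
  have happ : ∀ l : Fin n, Fin.append t (fun _ : Fin 1 => ξ) l.castSucc = t l := fun l =>
    Fin.append_left t _ l
  have happ' : Fin.append t (fun _ : Fin 1 => ξ) (Fin.last n) = ξ :=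
    Fin.append_right t (fun _ : Fin 1 => ξ) 0
  have hlast : ∀ z : K, D (φ z) = φ (E (Fin.last n) z) := by
    intro z
    have h1 := Pool.Agent.W73.PG.PULL.chain (L := F) _ hZ E hE (D.restrictScalars ℂ) z
    rw [Fin.sum_univ_castSucc, Finset.sum_eq_zero, zero_add] at h1
    · rw [happ'] at h1
      change D (φ z) = D (φ ξ) * φ (E (Fin.last n) z) at h1
      rw [hD, one_mul] at h1
      exact h1
    · intro l _
      rw [happ]
      change D (φ (t l)) * _ = 0
      obtain ⟨w, hw⟩ := hBΛ (t l) (ht l)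
      rw [← hw, Derivation.map_algebraMap, zero_mul]
  have hconst : ∀ z : K, E (Fin.last n) z = 0 → ∃ w : Λ, algebraMap Λ F w = φ z := by
    intro z hz
    obtain ⟨w, hw⟩ := Pool.Agent.W603.LV.const_of_der (k := Λ) hDne (h := φ z)
      (by rw [hlast, hz, map_zero])
    exact ⟨w, hw.symm⟩
  have hcomm : ∀ i (z : K), E (Fin.last n) (E i z) = E i (E (Fin.last n) z) := by
    intro i z
    have h1 := Pool.Agent.W619.TW.der_zero (⁅E (Fin.last n), E i⁆) _ hZ (fun j => by
      rw [Derivation.commutator_apply, hE, hE]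
      split_ifs <;> simp) z
    rw [Derivation.commutator_apply] at h1
    exact sub_eq_zero.1 h1
  have hxB : ∀ l : Fin n, E (Fin.last n) (x l.castSucc) = 0 := by
    intro l
    have h1 := hlast (x l.castSucc)
    rw [← ht', Derivation.map_algebraMap] at h1
    exact hinj (by rw [← h1, map_zero])
  choose lam hlam using fun (i j : Fin n) => hconst (E i.castSucc (x j.castSucc)) (by
    rw [hcomm, hxB, map_zero])
  -- the value of the form
  obtain ⟨X, hXdef⟩ : ∃ X, X = φ (x (Fin.last n)) := ⟨_, rfl⟩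
  have hX0 : X ≠ 0 := by
    rw [hXdef]
    exact (map_ne_zero φ).2 (hx0 _)
  have ht0 : ∀ l, t' l ≠ 0 := by
    intro l h
    have h1 := ht' l
    rw [h, map_zero] at h1
    exact hx0 _ (hinj (by rw [← h1, map_zero]))
  rw [← hXdef] at hHe
  have hφh : φ (ev x h) ≠ 0 := (map_ne_zero φ).2 hhx
  have hval : ∃ μ : Λ, φ (vol x E) = algebraMap Λ F μ * (D X / X) := by
    have h1 := Pool.Agent.Y172.pluri_coord (m := 1) hbas hE0 (ω := fun D => vol x D)
      (vol_pluri x) E
    rw [pow_one] at h1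
    have h2 := Pool.Agent.R882.KR.det_last (A := Matrix.of fun i j : Fin (n + 1) => E i (x j)) (by
      intro j
      rw [Matrix.of_apply]
      exact hxB j)
    refine ⟨(Matrix.of lam).det * (∏ l, t' l)⁻¹, ?_⟩
    have h3 : φ ((Matrix.of fun i j : Fin (n + 1) => E i (x j)).submatrix Fin.castSucc
        Fin.castSucc).det = algebraMap Λ F (Matrix.of lam).det := by
      have h4 := RingHom.map_det (φ : K →+* F) ((Matrix.of fun i j : Fin (n + 1) =>
        E i (x j)).submatrix Fin.castSucc Fin.castSucc)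
      have h5 := RingHom.map_det (algebraMap Λ F) (Matrix.of lam)
      rw [h5]
      refine h4.trans ?_
      congr 1
      ext i j
      exact (hlam i j).symm
    have h6 : φ (∏ b : Fin (n + 1), x b) = algebraMap Λ F (∏ l, t' l) * X := by
      rw [Fin.prod_univ_castSucc, map_mul, map_prod, map_prod, ← hXdef]
      congr 1
      exact Finset.prod_congr rfl fun l _ => (ht' l).symm
    rw [h1, h2, vol_frame hE0, Matrix.of_apply, map_mul, map_mul, h3, map_inv₀, h6, ← hlast,
      ← hXdef, map_mul, map_inv₀]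
    have h7 : algebraMap Λ F (∏ l, t' l) ≠ 0 :=
      (map_ne_zero _).2 (Finset.prod_ne_zero_iff.2 fun l _ => ht0 l)
    field_simp
  obtain ⟨μ, hμ⟩ := hval
  have hμ0 : μ ≠ 0 := by
    intro h
    rw [h, map_zero, zero_mul] at hμ
    have h2 : vol x E = 0 := hinj (by rw [hμ, map_zero])
    obtain ⟨B', hB'⟩ := Pool.Agent.W602.GT.exists_dual hbas
    have h3 := Pool.Agent.Y172.pluri_coord (m := 1) hZ hE (ω := fun D => vol x D)
      (vol_pluri x) E0
    rw [h2, mul_zero, vol_frame hE0] at h3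
    exact inv_ne_zero (Finset.prod_ne_zero_iff.2 fun b _ => hx0 b) h3
  -- generation
  have hXt : Transcendental Λ X := by
    rw [hXdef]
    exact htransc _ hX
  have hgenX : IntermediateField.adjoin Λ {X} = ⊤ := by
    rw [eq_top_iff, ← hgenF, IntermediateField.adjoin_le_iff]
    rintro _ ⟨z, rfl⟩
    have h1 : IntermediateField.adjoin ℂ (Set.range x) ≤
        ((IntermediateField.adjoin Λ {X}).restrictScalars ℂ).comap φ := by
      rw [IntermediateField.adjoin_le_iff]
      rintro _ ⟨i, rfl⟩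
      change φ (x i) ∈ IntermediateField.adjoin Λ {X}
      induction i using Fin.lastCases with
      | last =>
        rw [← hXdef]
        exact IntermediateField.subset_adjoin _ _ (by simp)
      | cast l =>
        rw [← ht']
        exact IntermediateField.algebraMap_mem _ _
    have h2 : z ∈ IntermediateField.adjoin ℂ (Set.range x) := by
      rw [hgen]
      trivial
    exact h1 h2
  -- the places of the fibre
  have hvec : ∀ (Q : Place Λ F) (P : Place ℂ K) (e : ℕ), 0 < e →
      (∀ z : K, Q.ord (φ z) = e * P.ord z) →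
      vec P x = Pi.single (Fin.last n) (P.ord (x (Fin.last n))) := by
    intro Q P e he hQP
    funext i
    induction i using Fin.lastCases with
    | last =>
      rw [Pi.single_eq_same]
      rfl
    | cast l =>
      rw [Pi.single_eq_of_ne (Fin.castSucc_ne_last l)]
      have h1 := hQP (x l.castSucc)
      rw [← ht', Q.ord_const (ht0 l)] at h1
      have h2 : (e : ℤ) ≠ 0 := by exact_mod_cast he.ne'
      exact (mul_eq_zero.1 h1.symm).resolve_left h2
  have hmnlo : ∀ κ : ℤ, 0 ≤ κ → 0 ≤ mn (Pi.single (Fin.last n) κ : Fin (n + 1) → ℤ) h := by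
    intro κ hκ
    obtain ⟨m, hm, h1⟩ := exists_mn hh0 (Pi.single (Fin.last n) κ : Fin (n + 1) → ℤ)
    rw [← h1, dotProduct_single]
    exact mul_nonneg (hT.ge m hm) hκ
  have hmnhi : -(a : ℤ) ≤ mn (Pi.single (Fin.last n) (-1) : Fin (n + 1) → ℤ) h := by
    obtain ⟨m, hm, h1⟩ := exists_mn hh0 (Pi.single (Fin.last n) (-1) : Fin (n + 1) → ℤ)
    rw [← h1, dotProduct_single]
    have := hT.le m hm
    omega
  have hspan := span_line (FBd := FB φ (Bd S x h)) hgenX (H := H) (a := a)
    (by exact_mod_cast hHa) hH0 hDne hl hhi (f := f) hf1 hf2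
    (by
      rintro Q ⟨P, e, he, hQP, hBd⟩ hQ
      have he' : (0 : ℤ) < e := by exact_mod_cast he
      have h1 := hvec Q P e he hQP
      have h2 := hQP (x (Fin.last n))
      rw [← hXdef] at h2
      have h3 := hQP (ev x h)
      rw [← hHe] at h3
      have hκ : 0 ≤ P.ord (x (Fin.last n)) := by
        rw [h2] at hQ
        exact nonneg_of_mul_nonneg_right hQ he'
      rcases hBd with hBd | hBd
      · rw [h1] at hBd
        rcases hκ.eq_or_lt with h4 | h4
        · rw [← h4, Pi.single_zero] at hBd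
          exact absurd hBd hS0
        · right
          obtain ⟨P0, hP0, hP0'⟩ := Pool.Agent.W619.PQ.zero_unique hgenX
          have h5 : 0 < Q.ord X := by
            rw [h2]
            exact mul_pos he' h4
          have h6 := hP0' Q h5
          rw [← h6] at hP0
          rw [h2] at hP0
          have h7 : P.ord (x (Fin.last n)) = 1 := by
            have := Int.eq_one_or_neg_one_of_mul_eq_one' hP0
            omega
          rw [h7] at hBd
          exact ⟨h5, hlS hBd⟩
      · left
        rw [h1] at hBd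
        rw [h3]
        have := hmnlo _ hκ
        exact mul_pos he' (by omega))
    (by
      rintro Q ⟨P, e, he, hQP, hBd⟩ hQ
      have he' : (0 : ℤ) < e := by exact_mod_cast he
      have h1 := hvec Q P e he hQP
      have h2 := hQP (x (Fin.last n))
      rw [← hXdef] at h2
      obtain ⟨P0, hP0, hP0'⟩ := Pool.Agent.W619.PQ.pole_unique hgenX
      have h6 := hP0' Q hQ
      rw [← h6] at hP0
      have h8 : (e : ℤ) = 1 ∧ P.ord (x (Fin.last n)) = -1 := by
        rw [h2] at hP0
        have h9 : (e : ℤ) * (-P.ord (x (Fin.last n))) = 1 := by linarith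
        have := Int.eq_one_or_neg_one_of_mul_eq_one' h9
        omega
      rcases hBd with hBd | hBd
      · rw [h1, h8.2] at hBd
        exact hhS hBd
      · exfalso
        rw [h1, h8.2] at hBd
        have h3 := hQP (ev x h)
        rw [← hHe, h8.1, one_mul, (Pool.Agent.W619.PQ.ord_aeval_of_neg Q hQ hH0).2, hHa, hP0] at h3
        omega)
  refine Submodule.span_le.2 ?_ hspan
  rintro _ ⟨i, hi1, hi2, rfl⟩
  obtain ⟨τ, hτ⟩ : ∃ τ : Λ, τ = ∏ l : Fin n, t' l ^ u i l.castSucc := ⟨_, rfl⟩
  have hτ0 : τ ≠ 0 := by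
    rw [hτ]
    exact Finset.prod_ne_zero_iff.2 fun l _ => zpow_ne_zero _ (ht0 l)
  have hmono : φ (R885.mono x (u i)) = algebraMap Λ F τ * X ^ i := by
    unfold R885.mono
    rw [Fin.prod_univ_castSucc, map_mul, map_prod, hu, map_zpow₀, ← hXdef, hτ, map_prod]
    simp only [map_zpow₀, ht']
  have h1 : X ^ i * (D X / X) / Polynomial.aeval X H = (τ * μ)⁻¹ • φ (th x h (u i) E) := by
    unfold th
    rw [Algebra.smul_def, map_div₀, map_mul, hmono, hμ, map_inv₀, map_mul, hHe]
    have h2 : algebraMap Λ F τ ≠ 0 := (map_ne_zero _).2 hτ0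
    have h3 : algebraMap Λ F μ ≠ 0 := (map_ne_zero _).2 hμ0
    field_simp
  rw [h1]
  exact Submodule.smul_mem _ _ (Submodule.subset_span ⟨⟨i, hi1, hi2⟩, rfl⟩)

end

end Pool.Agent.K4H25.LF
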