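import Pool.Agent.K4H25.LF.F5

/-!
Images of complements of nondegenerate hypersurfaces.
-/

set_option autoImplicit false
set_option linter.unusedSectionVars false
set_option linter.overlappingInstances false
set_option maxHeartbeats 4000000
set_option synthInstance.maxHeartbeats 400000

open FF Module Pool.Agent Pool.Agent.W602.GT Pool.Agent.R885
open Pool.Agent.R882.LT (SecAt LogGenusZero)
open Pool.Agent.W619.PL (IsA1Uniruled)

namespace Pool.Agent.K4H25.LF

open Pool.Agent.K4H25.MG (fdeg)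

/-- the base field is algebraically closed in a purely transcendental extension -/
theorem closed_of_top {K : Type} [Field K] [Algebra ℂ K] {B : IntermediateField ℂ K} {ξ : K}
    (hξ : ¬ IsAlgebraic B ξ) (htop : IntermediateField.adjoin B {ξ} = ⊤) {z : K}
    (hz : IsAlgebraic B z) : z ∈ B := by
  have hz' : z ∈ IntermediateField.adjoin B {ξ} := by
    rw [htop]
    trivial
  obtain ⟨e, he⟩ : ∃ e : RatFunc B ≃ₐ[B] IntermediateField.adjoin B {ξ},
    e = RatFunc.algEquivOfTranscendental ξ hξ := ⟨_, rfl⟩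
  obtain ⟨w, hw⟩ := e.surjective ⟨z, hz'⟩
  have h1 : IsAlgebraic B w := by
    have h2 : IsAlgebraic B (⟨z, hz'⟩ : IntermediateField.adjoin B {ξ}) :=
      (isAlgebraic_algebraMap_iff (R := B) (A := K)
        (algebraMap (IntermediateField.adjoin B {ξ}) K).injective).1 hz
    rw [← hw] at h2
    exact (isAlgebraic_algHom_iff e.toAlgHom e.injective).1 h2
  by_contra hzB
  have h2 : ¬ ∃ c, w = RatFunc.C c := by
    rintro ⟨c, rfl⟩
    apply hzB
    have h3 : e (RatFunc.C c) = algebraMap B _ c := e.commutes c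
    rw [h3] at hw
    have h4 := congrArg (fun y : IntermediateField.adjoin B {ξ} => (y : K)) hw
    change (c : K) = z at h4
    rw [← h4]
    exact c.2
  exact RatFunc.transcendental_of_ne_C w h2 h1

/-- **Images of complements of nondegenerate hypersurfaces.** -/
theorem main_hyp {n q a : ℕ} {β : Fin n → Fin q} {M : Fin q → ℕ}
    {K : Type} [Field K] [Algebra ℂ K] {x : Fin (n + 1) → K} (hxi : AlgebraicIndependent ℂ x)
    (hgen : IntermediateField.adjoin ℂ (Set.range x) = ⊤)
    {h : (Fin (n + 1) → ℤ) →₀ ℂ}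
    (hf : ∀ v : Fin (n + 1) → ℤ, ∀ c : Fin (n + 1) → ℂ, (∀ i, c i ≠ 0) → ev c (ini v h) = 0 →
      ∃ i, gr c (ini v h) i ≠ 0)
    (hT : Width h a) {S : Set (Fin (n + 1) → ℤ)} (hS0 : (0 : Fin (n + 1) → ℤ) ∉ S)
    {u : ℤ → Fin (n + 1) → ℤ} (hu : ∀ i, u i (Fin.last n) = i)
    (hu' : ∀ i : ℤ, 0 ≤ i → i ≤ a →
      (i = 0 → (Pi.single (Fin.last n) 1 : Fin (n + 1) → ℤ) ∈ S) →
      (i = a → (Pi.single (Fin.last n) (-1) : Fin (n + 1) → ℤ) ∈ S) →
      ∀ c : Fin n → ℕ, (∀ p, ∑ l with β l = p, c l ≤ M p) →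
        InP S h (u i + ∑ l, (c l : ℤ) • Pi.single l.castSucc 1))
    {t : Fin n → K} (ht : ∀ l, t l = x l.castSucc)
    (L : Type) [Field L] [Algebra ℂ L] [Algebra L K] [IsScalarTower ℂ L K]
    [FiniteDimensional L K] {BL : Place ℂ L → Prop}
    (hB : ∀ (P : Place ℂ L) (Q : Place ℂ K) (e : ℕ), Over Q P e → (BL P ↔ Bd S x h Q)) :
    ((∀ Λ : Finset (Fin q), Λ.Nonempty → fdeg L β t Λ ≤ 1 + ∑ b ∈ Λ, M b) →
      [LogGenusZero L (n + 1) BL, ¬ KodGe ℂ L (n + 1) BL 0, ¬ Psef ℂ L (n + 1) BL,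
        IsA1Uniruled ℂ L (n + 1) BL].TFAE ∧
      ∀ r : ℕ, r ≤ n →
        (∀ Λ : Finset (Fin q), Λ.Nonempty →
          Algebra.trdeg ℂ (IntermediateField.adjoin ℂ (t '' {j | β j ∉ Λ})) < (r : ℕ) →
          2 * fdeg L β t Λ ≤ 1 + ∑ b ∈ Λ, M b) →
        IsA1Uniruled ℂ L (n + 1) BL ∨ KodGe ℂ L (n + 1) BL r) ∧
    ((∀ b, finrank L (IntermediateField.adjoin L (Set.range t)) ≤ M b) →
      (IsA1Uniruled ℂ L (n + 1) BL ∨ KodGe ℂ L (n + 1) BL (n - 1)) ∧
      (KodGe ℂ (IntermediateField.adjoin ℂ (Set.range t)) n (fun _ => False) 0 →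
        IsA1Uniruled ℂ L (n + 1) BL ∨ KodGe ℂ L (n + 1) BL n)) := by
  classical
  have hx0 : ∀ i, x i ≠ 0 := fun i => hxi.ne_zero i
  have hess : Algebra.EssFiniteType ℂ K := by
    rw [← IntermediateField.fg_top_iff, ← hgen]
    exact ⟨Finset.univ.image x, by rw [Finset.coe_image, Finset.coe_univ, Set.image_univ]⟩
  have hbas : IsTranscendenceBasis ℂ x := by
    rw [hxi.isTranscendenceBasis_iff_isAlgebraic]
    have h3 : Algebra.IsAlgebraic (IntermediateField.adjoin ℂ (Set.range x)) K := by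
      rw [hgen]
      exact ⟨fun z => isAlgebraic_algebraMap (⟨z, trivial⟩ : (⊤ : IntermediateField ℂ K))⟩
    exact Pool.Agent.W602.GT.alg_adjoin h3
  have hK : Algebra.trdeg ℂ K = (n + 1 : ℕ) := by
    rw [← hbas.cardinalMk_eq_trdeg, Cardinal.mk_fintype, Fintype.card_fin]
  have hh0 : h ≠ 0 := by
    obtain ⟨m, hm, -⟩ := hT.top
    rintro rfl
    simp at hm
  have hhx : ev x h ≠ 0 := ev_ne_indep hxi hx0 hh0
  have hnd : ∀ v, NonDeg ℂ (fun _ : Unit => h) v := by
    intro v c hc hev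
    obtain ⟨i, hi⟩ := hf v c hc (hev ())
    exact LinearIndependent.of_subsingleton () fun h => hi (congrFun h i)
  obtain ⟨z, hz⟩ : ∃ z : Fin (n + 1 + 1) → K, ∀ i : Fin (n + 1), z i.castSucc = x i :=
    ⟨Fin.snoc x 0, fun i => Fin.snoc_castSucc (α := fun _ => K) (x := (0 : K)) (p := x) i⟩
  have hzi : AlgebraicIndependent ℂ fun i : Fin (n + 1) => z i.castSucc := by
    have : (fun i : Fin (n + 1) => z i.castSucc) = x := funext hz
    rw [this]
    exact hxi
  have htE : t = fun l : Fin n => z l.castSucc.castSucc := funext fun l => by rw [ht, hz]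
  have hd' : Algebra.trdeg ℂ (IntermediateField.adjoin ℂ (Set.range t)) = (n : ℕ) := by
    rw [htE]
    exact Pool.Agent.R882.KR.trdeg_first hzi
  have hX := Pool.Agent.R882.KR.not_alg_first hzi
  rw [← htE, hz] at hX
  have htB : ∀ l : Fin n, x l.castSucc ∈ IntermediateField.adjoin ℂ (Set.range t) := by
    intro l
    rw [← ht]
    exact IntermediateField.subset_adjoin _ _ ⟨l, rfl⟩
  have htop : IntermediateField.adjoin (IntermediateField.adjoin ℂ (Set.range t))
      {x (Fin.last n)} = ⊤ := by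
    rw [eq_top_iff]
    intro y _
    have h2 : y ∈ IntermediateField.adjoin ℂ (Set.range x) := by
      rw [hgen]
      trivial
    have h3 : IntermediateField.adjoin ℂ (Set.range x) ≤
        (IntermediateField.adjoin (IntermediateField.adjoin ℂ (Set.range t))
          {x (Fin.last n)}).restrictScalars ℂ := by
      rw [IntermediateField.adjoin_le_iff]
      rintro _ ⟨i, rfl⟩
      change x i ∈ IntermediateField.adjoin (IntermediateField.adjoin ℂ (Set.range t))
          {x (Fin.last n)}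
      induction i using Fin.lastCases with
      | last => exact IntermediateField.subset_adjoin _ _ rfl
      | cast l =>
        exact (IntermediateField.adjoin (IntermediateField.adjoin ℂ (Set.range t))
          {x (Fin.last n)}).algebraMap_mem ⟨x l.castSucc, htB l⟩
    exact h3 h2
  have hcl : ∀ g : K, IsAlgebraic (IntermediateField.adjoin ℂ (Set.range t)) g →
      g ∈ IntermediateField.adjoin ℂ (Set.range t) := fun g hg => closed_of_top hX htop hg
  obtain ⟨l, hldef⟩ : ∃ l : ℕ, l = if (Pi.single (Fin.last n) 1 : Fin (n + 1) → ℤ) ∈ S then 0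
    else 1 := ⟨_, rfl⟩
  obtain ⟨hi, hhidef⟩ : ∃ hi : ℤ, hi = if (Pi.single (Fin.last n) (-1) : Fin (n + 1) → ℤ) ∈ S
    then (a : ℤ) else a - 1 := ⟨_, rfl⟩
  have hlle : l ≤ 1 := by
    rw [hldef]
    split_ifs <;> omega
  have hhige : (a : ℤ) - 1 ≤ hi := by
    rw [hhidef]
    split_ifs <;> omega
  have hspan : Pool.Agent.K4H25.LP.SpanFibL (J := {i : ℤ // (l : ℤ) ≤ i ∧ i ≤ hi})
      (IntermediateField.adjoin ℂ (Set.range t)) (Bd S x h) (fun i => th x h (u i)) :=
    span_hyp hx0 hxi hgen hT hS0 htB hX hlle hhige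
      (fun hS => by rw [hldef, if_pos hS]) (fun hS => by rw [hhidef, if_pos hS]) hu
  have hω : ∀ i : {i : ℤ // (l : ℤ) ≤ i ∧ i ≤ hi}, TwLog (n + 1) (Bd S x h) β M t
      (th x h (u i)) := by
    rintro ⟨i, hi1, hi2⟩
    refine ⟨th_pluri x h _, fun c hc P _ => ?_⟩
    have h1 : InP S h (u i + ∑ l, (c l : ℤ) • Pi.single l.castSucc 1) := by
      refine hu' i ?_ ?_ ?_ ?_ c hc
      · exact le_trans (Int.natCast_nonneg _) hi1
      · refine hi2.trans ?_
        rw [hhidef]
        split_ifs <;> omega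
      · intro h0
        by_contra hS
        rw [hldef, if_neg hS] at hi1
        omega
      · intro h0
        by_contra hS
        rw [hhidef, if_neg hS] at hi2
        omega
    have h2 := th_sec hx0 hh0 hhx hnd h1 P
    have h3 : ∏ j, t j ^ c j = R885.mono x (∑ l : Fin n, (c l : ℤ) •
        (Pi.single l.castSucc 1 : Fin (n + 1) → ℤ)) := by
      rw [← Pool.Agent.R882.LT.mono_comb hx0]
      refine Finset.prod_congr rfl fun l _ => ?_
      rw [R885.mono_single, ht]
    have h4 : (fun D : Fin (n + 1) → Derivation ℂ K K => (∏ j, t j ^ c j) * th x h (u i) D) =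
        th x h (u i + ∑ l, (c l : ℤ) • Pi.single l.castSucc 1) := by
      funext D
      rw [h3, th_mul hx0]
    change SecAt (Bd S x h) P (fun D => (∏ j, t j ^ c j) * th x h (u i) D)
    rw [h4]
    exact h2
  have hfinJ : Finite {i : ℤ // (l : ℤ) ≤ i ∧ i ≤ hi} := (Set.finite_Icc (l : ℤ) hi).to_subtype
  exact main_fibL hK hd' hcl hω hspan L hB

end Pool.Agent.K4H25.LF
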